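import Mathlib

/-!
The augmentation ideal of the group algebra of the free group on two generators does not factor.

Sketch. Let z = 1 - A a - B b with A = (2+i)/4, B = (2-i)/4, and suppose z = p * q with p, q in the
augmentation ideal. Let G be the inverse of z on square summable functions, supported on positive
words, and k = q * G. Then p * k = 1, a finiteness (Kaplansky type) argument gives k * p = 1 and
k * z = q. A flux identity expresses k x through sums of q over branches of the tree, so the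
level sums of k are bounded, and the recursion k * z = q then makes k summable, which contradicts
p * k = 1 because p has sum zero.
-/

set_option autoImplicit false

namespace Pool.Agent.Results.MP_11aa79_an.NotFactor

/-- Membership in the augmentation ideal of the algebra of absolutely summable functions on the
free group on two generators: absolutely summable with sum zero. -/
def InI0 (f : FreeGroup (Fin 2) → ℂ) : Prop :=
  Summable (fun g => ‖f g‖) ∧ ∑' g, f g = 0

/-- The convolution product. -/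
noncomputable def convProd (b c : FreeGroup (Fin 2) → ℂ) : FreeGroup (Fin 2) → ℂ :=
  fun x => ∑' g, b g * c (g⁻¹ * x)

end Pool.Agent.Results.MP_11aa79_an.NotFactor

section
open Filter Topology
open scoped ENNReal InnerProductSpace
namespace Pool.Agent.Results.MP_11aa79_an.NotFactor.Kap

/-- The Hilbert space of square summable functions. -/
noncomputable abbrev H (G : Type) := lp (fun _ : G => ℂ) 2

variable {G : Type}

theorem two_pos' : 0 < (2 : ℝ≥0∞).toReal := by norm_num

theorem memH_iff (f : G → ℂ) : Memℓp f 2 ↔ Summable (fun x => ‖f x‖ ^ 2) := by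
  rw [memℓp_gen_iff two_pos']
  norm_num

theorem norm_sq (f : H G) : ‖f‖ ^ 2 = ∑' x, ‖f x‖ ^ 2 := by
  have := lp.norm_rpow_eq_tsum two_pos' f
  norm_num at this
  exact this

/-- Composition with a permutation, a linear isometry. -/
noncomputable def tr (σ : Equiv.Perm G) : H G →ₗᵢ[ℂ] H G where
  toFun f := ⟨fun x => f (σ x), by
    have h := (memH_iff _).1 (lp.memℓp f)
    exact (memH_iff _).2 ((σ.summable_iff (f := fun x => ‖f x‖ ^ 2)).2 h)⟩
  map_add' f g := by ext x; rfl
  map_smul' c f := by ext x; rfl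
  norm_map' f := by
    have h : ∀ g : H G, ‖g‖ = Real.sqrt (∑' x, ‖g x‖ ^ 2) := fun g => by
      rw [← norm_sq, Real.sqrt_sq (norm_nonneg _)]
    rw [h, h]
    congr 1
    exact σ.tsum_eq (fun x => ‖f x‖ ^ 2)

@[simp] theorem tr_apply (σ : Equiv.Perm G) (f : H G) (x : G) : tr σ f x = f (σ x) := rfl

theorem tr_inner (σ : Equiv.Perm G) (f g : H G) : ⟪tr σ f, tr σ g⟫_ℂ = ⟪f, g⟫_ℂ :=
  (tr σ).inner_map_map f g

variable [Group G]

/-- Left convolution by an absolutely summable function, on square summable functions. -/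
noncomputable def conv (b : G → ℂ) : H G →L[ℂ] H G :=
  ∑' g, b g • (tr (Equiv.mulLeft g⁻¹)).toContinuousLinearMap

/-- Right convolution. -/
noncomputable def rconv (b : G → ℂ) (k : H G) : H G :=
  ∑' g, b g • (tr (Equiv.mulRight g⁻¹) k)

omit [Group G] in
theorem norm_tr_le (σ : Equiv.Perm G) :
    ‖(tr σ).toContinuousLinearMap‖ ≤ 1 := LinearIsometry.norm_toContinuousLinearMap_le _

theorem summable_conv {b : G → ℂ} (hb : Summable fun g => ‖b g‖) :
    Summable fun g => b g • (tr (Equiv.mulLeft g⁻¹)).toContinuousLinearMap := by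
  refine Summable.of_norm_bounded hb (fun g => ?_)
  rw [norm_smul]
  exact mul_le_of_le_one_right (norm_nonneg _) (norm_tr_le _)

theorem conv_apply {b : G → ℂ} (hb : Summable fun g => ‖b g‖) (f : H G) (x : G) :
    conv b f x = ∑' g, b g * f (g⁻¹ * x) := by
  have h1 : HasSum (fun g => b g • (tr (Equiv.mulLeft g⁻¹)).toContinuousLinearMap) (conv b) :=
    (summable_conv hb).hasSum
  have h2 := h1.mapL ((lp.evalCLM ℂ (fun _ : G => ℂ) 2 x).comp
    (ContinuousLinearMap.apply ℂ (H G) f))
  exact h2.tsum_eq.symm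

theorem summable_rconv {b : G → ℂ} (hb : Summable fun g => ‖b g‖) (k : H G) :
    Summable fun g => b g • (tr (Equiv.mulRight g⁻¹) k) := by
  refine Summable.of_norm_bounded (g := fun g => ‖b g‖ * ‖k‖) (hb.mul_right _) (fun g => ?_)
  rw [norm_smul, (tr _).norm_map]

theorem rconv_apply {b : G → ℂ} (hb : Summable fun g => ‖b g‖) (k : H G) (x : G) :
    rconv b k x = ∑' g, b g * k (x * g⁻¹) := by
  have h1 : HasSum (fun g => b g • (tr (Equiv.mulRight g⁻¹) k)) (rconv b k) :=
    (summable_rconv hb k).hasSum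
  have h2 := h1.mapL (lp.evalCLM ℂ (fun _ : G => ℂ) 2 x)
  exact h2.tsum_eq.symm

/-- The delta function. -/
noncomputable def del [DecidableEq G] (x : G) : H G := lp.single 2 x 1

theorem conv_rtr {b : G → ℂ} (hb : Summable fun g => ‖b g‖) (h : G) (f : H G) :
    conv b (tr (Equiv.mulRight h) f) = tr (Equiv.mulRight h) (conv b f) := by
  ext x
  rw [conv_apply hb, tr_apply, conv_apply hb]
  simp [mul_assoc]


/-- Kernel of left convolution. -/
noncomputable def N (b : G → ℂ) : Submodule ℂ (H G) := LinearMap.ker (conv b).toLinearMap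

theorem mem_N (b : G → ℂ) (f : H G) : f ∈ N b ↔ conv b f = 0 := by
  simp [N]

theorem N_closed (b : G → ℂ) : IsClosed (N b : Set (H G)) := by
  have : (N b : Set (H G)) = (conv b) ⁻¹' {0} := by
    ext f; simp [N]
  rw [this]
  exact isClosed_singleton.preimage (conv b).continuous

instance (b : G → ℂ) : CompleteSpace (N b) := (N_closed b).completeSpace_coe

theorem N_inv {b : G → ℂ} (hb : Summable fun g => ‖b g‖) (h : G) {f : H G} (hf : f ∈ N b) :
    tr (Equiv.mulRight h) f ∈ N b := by
  rw [mem_N] at hf ⊢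
  rw [conv_rtr hb, hf, map_zero]

omit [Group G] in
theorem tr_tr_symm (σ : Equiv.Perm G) (f : H G) : tr σ (tr σ.symm f) = f := by
  ext x; simp

theorem Nperp_inv {b : G → ℂ} (hb : Summable fun g => ‖b g‖) (h : G) {f : H G}
    (hf : f ∈ (N b)ᗮ) : tr (Equiv.mulRight h) f ∈ (N b)ᗮ := by
  rw [Submodule.mem_orthogonal] at hf ⊢
  intro u hu
  have h1 : u = tr (Equiv.mulRight h) (tr (Equiv.mulRight h).symm u) := (tr_tr_symm _ _).symm
  rw [h1, tr_inner]
  apply hf
  have h2 := N_inv hb h⁻¹ hu
  have h3 : (Equiv.mulRight h).symm = Equiv.mulRight h⁻¹ := by ext; simp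
  rw [h3]
  exact h2

theorem rconv_mem {b : G → ℂ} (hb : Summable fun g => ‖b g‖) {k : H G} (hk : k ∈ (N b)ᗮ) :
    rconv b k ∈ (N b)ᗮ := by
  have h1 : HasSum (fun g => b g • (tr (Equiv.mulRight g⁻¹) k)) (rconv b k) :=
    (summable_rconv hb k).hasSum
  refine (N b).isClosed_orthogonal.mem_of_tendsto h1 (Eventually.of_forall fun s => ?_)
  exact Submodule.sum_mem _ fun g _ => Submodule.smul_mem _ _ (Nperp_inv hb _ hk)

theorem conv_rconv {b : G → ℂ} (hb : Summable fun g => ‖b g‖) (k : H G) :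
    conv b (rconv b k) = rconv b (conv b k) := by
  have h1 : HasSum (fun g => b g • (tr (Equiv.mulRight g⁻¹) k)) (rconv b k) :=
    (summable_rconv hb k).hasSum
  have h2 := h1.mapL (conv b)
  rw [← h2.tsum_eq]
  unfold rconv
  congr 1
  ext g
  rw [map_smul, conv_rtr hb]

variable [DecidableEq G]

theorem kaplansky {b : G → ℂ} (hb : Summable fun g => ‖b g‖) (k : H G)
    (hk : conv b k = lp.single 2 1 1) (n : H G) (hn : conv b n = 0) : n = 0 := by
  set δ : H G := lp.single 2 1 1 with hδ
  -- replace k by its projection on the orthogonal complement of the kernel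
  obtain ⟨k', hk'1, hk'2⟩ : ∃ k' : H G, k' ∈ (N b)ᗮ ∧ conv b k' = δ := by
    refine ⟨k - (N b).starProjection k, ?_, ?_⟩
    · exact Submodule.sub_starProjection_mem_orthogonal k
    · have : conv b ((N b).starProjection k) = 0 := by
        rw [← mem_N]
        exact Submodule.starProjection_apply_mem _ _
      rw [map_sub, this, sub_zero, hk]
  have hu := rconv_mem hb hk'1
  set u := rconv b k' with hudef
  have h1 : conv b u = conv b δ := by
    rw [hudef, conv_rconv hb, hk'2]
    ext x
    rw [rconv_apply hb, conv_apply hb]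
    rw [tsum_eq_single x, tsum_eq_single x]
    · simp [hδ]
    · intro g hg
      have : g⁻¹ * x ≠ 1 := fun h => hg (by rw [inv_mul_eq_one] at h; exact h)
      simp [hδ, this]
    · intro g hg
      have : x * g⁻¹ ≠ 1 := fun h => hg (by rw [mul_inv_eq_one] at h; exact h.symm)
      simp [hδ, this]
  have h2 : δ - u ∈ N b := by
    rw [mem_N, map_sub, h1, sub_self]
  have h3 : u 1 = 1 := by
    have h4 : conv b k' 1 = 1 := by rw [hk'2]; simp [hδ]
    rw [← h4, hudef, rconv_apply hb, conv_apply hb]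
    simp
  -- the component of δ in the kernel vanishes
  have h5 : δ - u = 0 := by
    have h6 : ⟪δ - u, u⟫_ℂ = 0 := (Submodule.mem_orthogonal _ _).1 hu _ h2
    have h7 : ⟪δ, u⟫_ℂ = 1 := by
      rw [hδ, lp.inner_single_left]; simp [h3]
    have h8 : ⟪δ, δ⟫_ℂ = 1 := by
      rw [hδ, lp.inner_single_left]; simp
    have h9 : ⟪δ - u, δ⟫_ℂ = 0 := by
      have h10 : ⟪u, δ⟫_ℂ = 1 := by
        rw [← inner_conj_symm, h7]; simp
      rw [inner_sub_left, h8, h10, sub_self]
    have : ⟪δ - u, δ - u⟫_ℂ = 0 := by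
      rw [inner_sub_right, h9, h6, sub_self]
    exact inner_self_eq_zero.1 this
  have h6 : δ ∈ (N b)ᗮ := by
    have : δ = u := sub_eq_zero.1 h5
    rw [this]; exact hu
  ext g
  have h7 : tr (Equiv.mulRight g⁻¹) δ ∈ (N b)ᗮ := Nperp_inv hb _ h6
  have h8 : ⟪n, tr (Equiv.mulRight g⁻¹) δ⟫_ℂ = 0 :=
    (Submodule.mem_orthogonal _ _).1 h7 _ ((mem_N _ _).2 hn)
  have h9 : tr (Equiv.mulRight g⁻¹) δ = lp.single 2 g 1 := by
    ext x
    rw [tr_apply]
    by_cases hx : x = g
    · subst hx; simp [hδ]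
    · have : x * g⁻¹ ≠ 1 := fun h => hx (by rw [mul_inv_eq_one] at h; exact h)
      simp [hδ, this, hx]
  rw [h9, lp.inner_single_right] at h8
  simpa using h8

end Pool.Agent.Results.MP_11aa79_an.NotFactor.Kap
end

section
open Filter Topology
namespace Pool.Agent.Results.MP_11aa79_an.NotFactor.Tree

/-- Averaging over two disjoint injective child maps: a nonnegative function vanishing at
infinity with summable outward differences is summable. -/
theorem summable_of_children {G : Type} (K : G → ℝ) (hK : ∀ g, 0 ≤ K g)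
    (hfin : ∀ T : ℝ, 0 < T → {g | T < K g}.Finite) (φ ψ : G → G)
    (hinj : Function.Injective (Sum.elim φ ψ))
    (h1 : Summable fun g => |K g - K (φ g)|) (h2 : Summable fun g => |K g - K (ψ g)|) :
    Summable K := by
  set A : ℝ := (∑' g, |K g - K (φ g)|) + ∑' g, |K g - K (ψ g)| with hA
  have key : ∀ T : ℝ, 0 < T → ∑' g, max (K g - T) 0 ≤ A := by
    intro T hT
    set L : G → ℝ := fun g => max (K g - T) 0 with hL
    have hL0 : ∀ g, 0 ≤ L g := fun g => le_max_right _ _
    have hLs : Summable L := by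
      refine summable_of_hasFiniteSupport ((hfin T hT).subset ?_)
      intro g hg
      by_contra hcon
      apply hg
      simp only [Set.mem_ofPred_eq, not_lt] at hcon
      simp only [hL]
      exact max_eq_right (by linarith)
    have hLip : ∀ g g', L g ≤ L g' + |K g - K g'| := by
      intro g g'
      simp only [hL]
      apply max_le
      · have := le_abs_self (K g - K g')
        have := le_max_left (K g' - T) 0
        linarith
      · have := abs_nonneg (K g - K g')
        have := le_max_right (K g' - T) 0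
        linarith
    have hφi : Function.Injective φ := fun x y h => by
      have := @hinj (Sum.inl x) (Sum.inl y) (by simpa using h)
      simpa using this
    have hψi : Function.Injective ψ := fun x y h => by
      have := @hinj (Sum.inr x) (Sum.inr y) (by simpa using h)
      simpa using this
    have hφs : Summable fun g => L (φ g) := hLs.comp_injective hφi
    have hψs : Summable fun g => L (ψ g) := hLs.comp_injective hψi
    have hsum : (∑' g, L (φ g)) + ∑' g, L (ψ g) ≤ ∑' g, L g := by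
      have h3 : Summable (fun s => L (Sum.elim φ ψ s)) := hLs.comp_injective hinj
      have h4 : ∑' s, L (Sum.elim φ ψ s) = (∑' g, L (φ g)) + ∑' g, L (ψ g) := by
        exact Summable.tsum_sum (f := fun s => L (Sum.elim φ ψ s)) hφs hψs
      rw [← h4]
      exact tsum_comp_le_tsum_of_inj hLs hL0 hinj
    have e1 : ∑' g, L g ≤ ∑' g, (L (φ g) + |K g - K (φ g)|) :=
      hLs.tsum_le_tsum (fun g => hLip _ _) (hφs.add h1)
    have e2 : ∑' g, L g ≤ ∑' g, (L (ψ g) + |K g - K (ψ g)|) :=
      hLs.tsum_le_tsum (fun g => hLip _ _) (hψs.add h2)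
    rw [hφs.tsum_add h1] at e1
    rw [hψs.tsum_add h2] at e2
    linarith
  refine summable_of_sum_le (c := A) hK (fun s => ?_)
  refine le_of_forall_pos_le_add (fun ε hε => ?_)
  set T : ℝ := ε / (s.card + 1) with hT
  have hTpos : 0 < T := by positivity
  have hLs : Summable (fun g => max (K g - T) 0) := by
    refine summable_of_hasFiniteSupport ((hfin T hTpos).subset ?_)
    intro g hg
    by_contra hcon
    apply hg
    simp only [Set.mem_ofPred_eq, not_lt] at hcon
    exact max_eq_right (by linarith)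
  have h3 : ∑ g ∈ s, K g ≤ ∑ g ∈ s, (max (K g - T) 0 + T) := by
    apply Finset.sum_le_sum
    intro g _
    have := le_max_left (K g - T) 0
    linarith
  have h4 : ∑ g ∈ s, max (K g - T) 0 ≤ ∑' g, max (K g - T) 0 :=
    hLs.sum_le_tsum s (fun _ _ => le_max_right _ _)
  have h5 : (s.card : ℝ) * T ≤ ε := by
    rw [hT, mul_div_assoc', div_le_iff₀ (by positivity)]
    nlinarith
  calc ∑ g ∈ s, K g ≤ ∑ g ∈ s, (max (K g - T) 0 + T) := h3
    _ = ∑ g ∈ s, max (K g - T) 0 + s.card * T := by
      rw [Finset.sum_add_distrib, Finset.sum_const, nsmul_eq_mul]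
    _ ≤ A + ε := by linarith [key T hTpos]

variable {α : Type} [DecidableEq α]

open FreeGroup

/-- The child of g in direction i. -/
def child (i : α) (g : FreeGroup α) : FreeGroup α :=
  if g.toWord.getLast? = some (i, false) then g * (of i)⁻¹ else g * of i

theorem toWord_mul_letter (g : FreeGroup α) (l : α × Bool)
    (h : ∀ a ∈ g.toWord.getLast?, a.1 = l.1 → a.2 = l.2) :
    (g * mk [l]).toWord = g.toWord ++ [l] := by
  rw [toWord_mul, toWord_mk, reduce_singleton]
  apply IsReduced.reduce_eq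
  unfold FreeGroup.IsReduced
  rw [List.isChain_append]
  refine ⟨isReduced_toWord, List.isChain_singleton _, ?_⟩
  intro x hx y hy
  simp at hy
  subst hy
  exact h x hx

theorem toWord_child (i : α) (g : FreeGroup α) :
    ∃ s : Bool, (child i g).toWord = g.toWord ++ [(i, s)] := by
  unfold child
  split_ifs with h
  · refine ⟨false, ?_⟩
    have : (of i)⁻¹ = mk [(i, false)] := rfl
    rw [this]
    apply toWord_mul_letter
    intro a ha h1
    rw [h] at ha
    simp at ha
    rw [← ha]
  · refine ⟨true, ?_⟩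
    have : (of i) = mk [(i, true)] := rfl
    rw [this]
    apply toWord_mul_letter
    intro a ha h1
    by_contra h2
    apply h
    rw [Option.mem_def] at ha
    rw [ha]
    have : a = (i, false) := Prod.ext h1 (by simpa using h2)
    rw [this]

theorem child_injective {i j : α} (hij : i ≠ j) :
    Function.Injective (Sum.elim (child i) (child j)) := by
  have main : ∀ (a b : α) (g h : FreeGroup α), child a g = child b h → a = b ∧ g = h := by
    intro a b g h hgh
    obtain ⟨s, hs⟩ := toWord_child a g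
    obtain ⟨t, ht⟩ := toWord_child b h
    rw [hgh, ht] at hs
    have h1 := List.append_inj' hs rfl
    have h2 : h = g := toWord_injective h1.1
    have h3 : (b, t) = (a, s) := by simpa using h1.2
    exact ⟨(congrArg Prod.fst h3).symm, h2.symm⟩
  rintro (g | g) (h | h) hgh
  · simp only [Sum.elim_inl] at hgh
    rw [(main _ _ _ _ hgh).2]
  · simp only [Sum.elim_inl, Sum.elim_inr] at hgh
    exact absurd (main _ _ _ _ hgh).1 hij
  · simp only [Sum.elim_inl, Sum.elim_inr] at hgh
    exact absurd (main _ _ _ _ hgh).1 hij.symm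
  · simp only [Sum.elim_inr] at hgh
    rw [(main _ _ _ _ hgh).2]

theorem summable_child {K : FreeGroup α → ℝ} {i : α}
    (h : Summable fun g => |K (g * (of i)⁻¹) - K g|) :
    Summable fun g => |K g - K (child i g)| := by
  have h' : Summable fun g => |K g - K (g * of i)| := by
    have := (Equiv.mulRight (of i)).summable_iff.2 h
    simpa [Function.comp_def] using this
  refine Summable.of_nonneg_of_le (fun _ => abs_nonneg _) (fun g => ?_) (h'.add h)
  unfold child
  split_ifs
  · rw [abs_sub_comm]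
    have := abs_nonneg (K g - K (g * of i))
    linarith
  · have := abs_nonneg (K (g * (of i)⁻¹) - K g)
    linarith

/-- The letter weights. -/
def wt (i j : α) (A B : ℂ) (l : α × Bool) : ℂ :=
  if l = (i, true) then A else if l = (j, true) then B else 0

/-- The Green type function of the positive walk. -/
def Gr (i j : α) (A B : ℂ) (g : FreeGroup α) : ℂ := (g.toWord.map (wt i j A B)).prod

theorem toWord_inv_of_mul (i : α) (g : FreeGroup α) :
    ((of i)⁻¹ * g).toWord = if g.toWord.head? = some (i, true) then g.toWord.tail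
      else (i, false) :: g.toWord := by
  have h1 : (of i)⁻¹ = mk [(i, false)] := rfl
  rw [h1, toWord_mul, toWord_mk, reduce_singleton, List.singleton_append, reduce.cons,
    reduce_toWord]
  cases h : g.toWord with
  | nil => simp
  | cons hd tl =>
    obtain ⟨c, s⟩ := hd
    simp only [List.head?_cons, List.tail_cons, Option.some.injEq, Prod.mk.injEq]
    by_cases h2 : c = i
    · subst h2
      cases s <;> simp
    · have h3 : ¬ i = c := fun h => h2 h.symm
      simp [h2, h3]

theorem Gr_eq {i j : α} (hij : i ≠ j) (A B : ℂ) (g : FreeGroup α) :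
    Gr i j A B g - A * Gr i j A B ((of i)⁻¹ * g) - B * Gr i j A B ((of j)⁻¹ * g) =
      if g = 1 then 1 else 0 := by
  unfold Gr
  rw [toWord_inv_of_mul, toWord_inv_of_mul]
  cases h : g.toWord with
  | nil =>
    have : g = 1 := toWord_eq_nil_iff.1 h
    simp [this, wt]
  | cons hd tl =>
    have hg : g ≠ 1 := fun h0 => by
      rw [h0, toWord_one] at h
      exact absurd h (by simp)
    obtain ⟨c, s⟩ := hd
    simp only [List.head?_cons, List.tail_cons, Option.some.injEq, if_neg hg]
    by_cases h2 : ((c, s) : α × Bool) = (i, true)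
    · have h3 : ¬ ((c, s) : α × Bool) = (j, true) := by
        rw [h2]
        intro h4
        exact hij (congrArg Prod.fst h4)
      rw [if_pos h2, if_neg h3]
      simp [wt, h2]
    · by_cases h3 : ((c, s) : α × Bool) = (j, true)
      · rw [if_neg h2, if_pos h3]
        simp [wt, h3, hij.symm]
      · rw [if_neg h2, if_neg h3]
        simp [wt, h2, h3]

theorem summable_list {p : Bool → ℝ} (hp : ∀ b, 0 ≤ p b) (h : p true + p false < 1) :
    Summable fun l : List Bool => (l.map p).prod := by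
  rw [← (List.equivSigmaTuple (α := Bool)).symm.summable_iff]
  have h0 : ((fun l : List Bool => (l.map p).prod) ∘ (List.equivSigmaTuple (α := Bool)).symm) =
      fun x : (Σ n, Fin n → Bool) => ∏ i, p (x.2 i) := by
    ext x
    obtain ⟨n, f⟩ := x
    simp [List.equivSigmaTuple, List.map_ofFn, List.prod_ofFn]
  rw [h0, summable_sigma_of_nonneg (fun x => Finset.prod_nonneg fun i _ => hp _)]
  refine ⟨fun n => (hasSum_fintype _).summable, ?_⟩
  have h1 : ∀ n : ℕ, ∑' f : Fin n → Bool, ∏ i, p (f i) = (p true + p false) ^ n := by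
    intro n
    rw [tsum_fintype, ← Fintype.sum_bool, Fintype.sum_pow]
  simp_rw [h1]
  exact summable_geometric_of_lt_one (add_nonneg (hp _) (hp _)) h

theorem summable_Gr {i j : α} (hij : i ≠ j) {A B : ℂ} (h : ‖A‖ ^ 2 + ‖B‖ ^ 2 < 1) :
    Summable fun g => ‖Gr i j A B g‖ ^ 2 := by
  have h1 : (fun g => ‖Gr i j A B g‖ ^ 2) =
      (fun l : List (α × Bool) => (l.map fun x => ‖wt i j A B x‖ ^ 2).prod) ∘ toWord := by
    ext g
    simp only [Gr, Function.comp]
    induction g.toWord with
    | nil => simp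
    | cons hd tl ih =>
      simp only [List.map_cons, List.prod_cons, norm_mul, mul_pow, ih]
  rw [h1]
  apply Summable.comp_injective _ toWord_injective
  set ι : Bool → α × Bool := fun b => if b then (i, true) else (j, true) with hι
  have hιi : Function.Injective ι := by
    intro a b hab
    cases a <;> cases b <;> simp [hι, hij, hij.symm] at hab ⊢
  rw [← (List.map_injective_iff.2 hιi).summable_iff]
  · have : ((fun l : List (α × Bool) => (l.map fun x => ‖wt i j A B x‖ ^ 2).prod) ∘ List.map ι) =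
        fun l : List Bool => (l.map fun b => if b then ‖A‖ ^ 2 else ‖B‖ ^ 2).prod := by
      ext l
      simp only [Function.comp, List.map_map]
      congr 1
      apply List.map_congr_left
      intro b _
      cases b
      · simp [hι, wt, hij.symm]
      · simp [hι, wt]
    rw [this]
    apply summable_list
    · intro b; split_ifs <;> positivity
    · simpa using h
  · intro l hl
    have : ∃ x ∈ l, ¬ (x ∈ Set.range ι) := by
      by_contra hcon
      push Not at hcon
      apply hl
      have h2 : l ∈ Set.range (List.map ι) := by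
        rw [Set.range_list_map]
        exact hcon
      exact h2
    obtain ⟨x, hx, hx2⟩ := this
    apply List.prod_eq_zero
    rw [List.mem_map]
    refine ⟨x, hx, ?_⟩
    have h3 : x ≠ (i, true) := fun h => hx2 ⟨true, by simp [hι, h]⟩
    have h4 : x ≠ (j, true) := fun h => hx2 ⟨false, by simp [hι, h]⟩
    simp [wt, h3, h4]

end Pool.Agent.Results.MP_11aa79_an.NotFactor.Tree
end

section
open Filter Topology
namespace Pool.Agent.Results.MP_11aa79_an.NotFactor.Main
open Pool.Agent.Results.MP_11aa79_an.NotFactor.Kap Pool.Agent.Results.MP_11aa79_an.NotFactor.Tree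

variable {G : Type} [Group G]

/-- Convolution of functions. -/
noncomputable def cv (m S : G → ℂ) : G → ℂ := fun u => ∑' h, m h * S (h⁻¹ * u)

/-- The shear (g, u) to (g, g inverse u). -/
def shear (G : Type) [Group G] : G × G ≃ G × G where
  toFun p := (p.1, p.1⁻¹ * p.2)
  invFun p := (p.1, p.1 * p.2)
  left_inv p := by simp
  right_inv p := by simp

omit [Group G] in
theorem summable_prod {m S : G → ℂ} (hm : Summable fun g => ‖m g‖) (hS : Summable fun g => ‖S g‖) :
    Summable fun p : G × G => ‖m p.1‖ * ‖S p.2‖ :=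
  hm.mul_of_nonneg hS (fun _ => norm_nonneg _) (fun _ => norm_nonneg _)

theorem summable_cv {m S : G → ℂ} (hm : Summable fun g => ‖m g‖) (hS : Summable fun g => ‖S g‖) :
    Summable fun u => ‖cv m S u‖ := by
  have h1 : Summable fun p : G × G => ‖m p.1‖ * ‖S (p.1⁻¹ * p.2)‖ := by
    have := (shear G).summable_iff.2 (summable_prod hm hS)
    exact this
  have h2 : Summable fun p : G × G => ‖m p.2‖ * ‖S (p.2⁻¹ * p.1)‖ := by
    have := (Equiv.prodComm G G).summable_iff.2 h1
    exact this
  have h3 := h2.prod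
  refine Summable.of_nonneg_of_le (fun _ => norm_nonneg _) (fun u => ?_) h3
  have h4 : Summable fun h => ‖m h‖ * ‖S (h⁻¹ * u)‖ := h2.prod_factor u
  have h5 : Summable fun h => ‖m h * S (h⁻¹ * u)‖ := by
    simpa only [norm_mul] using h4
  refine (norm_tsum_le_tsum_norm h5).trans (le_of_eq ?_)
  simp only [norm_mul]

theorem tsum_cv {m S : G → ℂ} (hm : Summable fun g => ‖m g‖) (hS : Summable fun g => ‖S g‖) :
    ∑' u, cv m S u = (∑' g, m g) * ∑' g, S g := by
  have h1 : Summable fun p : G × G => m p.1 * S (p.1⁻¹ * p.2) := by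
    have := (shear G).summable_iff.2 (summable_prod hm hS)
    refine Summable.of_norm ?_
    simp only [norm_mul]
    exact this
  have h2 : ∑' u, ∑' h, m h * S (h⁻¹ * u) = ∑' h, ∑' u, m h * S (h⁻¹ * u) := by
    exact Summable.tsum_comm (f := fun h u => m h * S (h⁻¹ * u)) h1
  unfold cv
  rw [h2]
  have h3 : ∀ h, ∑' u, m h * S (h⁻¹ * u) = m h * ∑' g, S g := by
    intro h
    rw [tsum_mul_left]
    congr 1
    exact (Equiv.mulLeft h⁻¹).tsum_eq S
  simp_rw [h3]
  rw [tsum_mul_right]

theorem conv_conv {m S : G → ℂ} (hm : Summable fun g => ‖m g‖) (hS : Summable fun g => ‖S g‖)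
    (f : H G) : conv m (conv S f) = conv (cv m S) f := by
  ext t
  rw [conv_apply hm, conv_apply (summable_cv hm hS)]
  simp_rw [conv_apply hS]
  have h0 : Summable fun p : G × G => m p.1 * (S p.2 * f (p.2⁻¹ * (p.1⁻¹ * t))) := by
    refine Summable.of_norm_bounded (g := fun p : G × G => (‖m p.1‖ * ‖S p.2‖) * ‖f‖)
      ((summable_prod hm hS).mul_right _) (fun p => ?_)
    rw [norm_mul, norm_mul, mul_assoc]
    have := lp.norm_apply_le_norm (p := 2) (by norm_num) f (p.2⁻¹ * (p.1⁻¹ * t))
    gcongr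
  have h1 : Summable fun p : G × G => m p.1 * (S (p.1⁻¹ * p.2) * f (p.2⁻¹ * t)) := by
    have := (shear G).summable_iff.2 h0
    refine this.congr (fun p => ?_)
    simp only [Function.comp, shear, Equiv.coe_fn_mk, mul_inv_rev, inv_inv, mul_assoc,
      mul_inv_cancel_left]
  calc ∑' g, m g * ∑' h, S h * f (h⁻¹ * (g⁻¹ * t))
      = ∑' g, ∑' h, m g * (S h * f (h⁻¹ * (g⁻¹ * t))) := by
        congr 1; ext g; rw [tsum_mul_left]
    _ = ∑' g, ∑' u, m g * (S (g⁻¹ * u) * f (u⁻¹ * t)) := by
        congr 1; ext g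
        rw [← (Equiv.mulLeft g⁻¹).tsum_eq (fun h => m g * (S h * f (h⁻¹ * (g⁻¹ * t))))]
        congr 1; ext u
        simp only [Equiv.coe_mulLeft, mul_inv_rev, inv_inv, mul_assoc, mul_inv_cancel_left]
    _ = ∑' u, ∑' g, m g * (S (g⁻¹ * u) * f (u⁻¹ * t)) :=
        (Summable.tsum_comm (f := fun g u => m g * (S (g⁻¹ * u) * f (u⁻¹ * t))) h1).symm
    _ = ∑' u, cv m S u * f (u⁻¹ * t) := by
        congr 1; ext u
        unfold cv
        rw [← tsum_mul_right]
        congr 1; ext g; ring

omit [Group G] in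
theorem summable_sq_of_summable {f : G → ℂ} (hf : Summable fun g => ‖f g‖) : Memℓp f 2 := by
  have : Memℓp f 1 := by
    rw [memℓp_gen_iff (by norm_num)]
    simpa using hf
  exact this.of_exponent_ge (by norm_num)

open FreeGroup in
/-- Main lemma: no single element m of the augmentation ideal divides both
differences i minus 1 and j minus 1. -/
theorem main_lemma {α : Type} [DecidableEq α] {i j : α} (hij : i ≠ j)
    (m f1 f2 : FreeGroup α → ℂ) (hm : Summable fun g => ‖m g‖) (hm0 : ∑' g, m g = 0)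
    (hf1 : Summable fun g => ‖f1 g‖) (hf2 : Summable fun g => ‖f2 g‖)
    (h1 : ∀ g, cv m f1 g = (if g = of i then 1 else 0) - (if g = 1 then 1 else 0))
    (h2 : ∀ g, cv m f2 g = (if g = of j then 1 else 0) - (if g = 1 then 1 else 0)) : False := by
  have hG : ‖(1/2 : ℂ)‖ ^ 2 + ‖(1/2 : ℂ)‖ ^ 2 < 1 := by norm_num
  set Gh : H (FreeGroup α) := ⟨Gr i j (1/2) (1/2), (memH_iff _).2 (summable_Gr hij hG)⟩ with hGh
  set S : FreeGroup α → ℂ := fun g => -(1/2) * (f1 g + f2 g) with hSdef
  have hS : Summable fun g => ‖S g‖ := by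
    refine Summable.of_nonneg_of_le (fun _ => norm_nonneg _) (fun g => ?_) (hf1.add hf2)
    simp only [hSdef, norm_mul]
    have : ‖(-(1/2) : ℂ)‖ = 1/2 := by norm_num
    rw [this]
    have := norm_add_le (f1 g) (f2 g)
    have h3 := norm_nonneg (f1 g + f2 g)
    linarith
  have hsm : ∀ {f : FreeGroup α → ℂ}, (Summable fun g => ‖f g‖) → ∀ u,
      Summable fun h => m h * f (h⁻¹ * u) := by
    intro f hf u
    have h3 : Summable fun p : FreeGroup α × FreeGroup α => ‖m p.1‖ * ‖f (p.1⁻¹ * p.2)‖ := by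
      have := (shear (FreeGroup α)).summable_iff.2 (summable_prod hm hf)
      exact this
    have h4 := (((Equiv.prodComm _ _).summable_iff.2 h3).prod_factor u)
    refine Summable.of_norm (h4.congr fun h => ?_)
    simp
  have hcvS : ∀ g, cv m S g = (if g = 1 then 1 else 0) - (1/2) * (if g = of i then 1 else 0)
      - (1/2) * (if g = of j then 1 else 0) := by
    intro g
    have : cv m S g = -(1/2) * (cv m f1 g + cv m f2 g) := by
      simp only [cv, hSdef]
      rw [← (hsm hf1 g).tsum_add (hsm hf2 g), ← tsum_mul_left]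
      congr 1; ext h; ring
    rw [this, h1, h2]
    ring
  set k : H (FreeGroup α) := conv S Gh with hk
  have hkd : conv m k = lp.single 2 1 1 := by
    rw [hk, conv_conv hm hS]
    ext t
    rw [conv_apply (summable_cv hm hS)]
    have h3 : ∀ g, cv m S g * Gh (g⁻¹ * t) = (if g = 1 then Gh t else 0)
        - (if g = of i then (1/2) * Gh ((of i)⁻¹ * t) else 0)
        - (if g = of j then (1/2) * Gh ((of j)⁻¹ * t) else 0) := by
      intro g
      rw [hcvS]
      have hi1 : of i ≠ 1 := of_ne_one i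
      have hj1 : of j ≠ 1 := of_ne_one j
      have hij1 : of i ≠ of j := fun h => hij (of_injective h)
      by_cases ha : g = 1
      · subst ha; simp [hi1.symm, hj1.symm]
      · by_cases hb : g = of i
        · subst hb; simp [hi1, hij1]
        · by_cases hc : g = of j
          · subst hc; simp [hj1, hij1.symm]
          · simp [ha, hb, hc]
    simp_rw [h3]
    rw [Summable.tsum_sub, Summable.tsum_sub, tsum_ite_eq, tsum_ite_eq, tsum_ite_eq]
    · have := Gr_eq hij (1/2) (1/2) t
      simp only [hGh]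
      rw [this]
      by_cases ht : t = 1
      · subst ht; simp
      · simp [ht]
    · exact (hasSum_ite_eq _ _).summable
    · exact (hasSum_ite_eq _ _).summable
    · exact ((hasSum_ite_eq _ _).summable).sub (hasSum_ite_eq _ _).summable
    · exact (hasSum_ite_eq _ _).summable
  have hinj := kaplansky hm k hkd
  -- identify the right differences of k
  have hdiff : ∀ (c : α) (f : FreeGroup α → ℂ) (hf : Summable fun g => ‖f g‖)
      (_ : ∀ g, cv m f g = (if g = of c then 1 else 0) - (if g = 1 then 1 else 0)),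
      ∀ g, k (g * (of c)⁻¹) - k g = f g := by
    intro c f hf hcv g
    set fh : H (FreeGroup α) := ⟨f, summable_sq_of_summable hf⟩ with hfh
    have h3 : conv m (tr (Equiv.mulRight (of c)⁻¹) k - k - fh) = 0 := by
      rw [map_sub, map_sub, conv_rtr hm, hkd]
      ext t
      have h4 : conv m fh t = (if t = of c then 1 else 0) - (if t = 1 then 1 else 0) := by
        rw [conv_apply hm, ← hcv t]
        rfl
      have h5 : (tr (Equiv.mulRight (of c)⁻¹) (lp.single 2 1 1 : H (FreeGroup α))) t =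
          if t = of c then 1 else 0 := by
        rw [tr_apply]
        by_cases ht : t = of c
        · subst ht; simp
        · have : t * (of c)⁻¹ ≠ 1 := fun h => ht (by rwa [mul_inv_eq_one] at h)
          simp [ht, this]
      have h6 : (lp.single 2 1 1 : H (FreeGroup α)) t = if t = 1 then 1 else 0 := by
        by_cases ht : t = 1
        · subst ht; simp
        · simp [ht]
      simp only [lp.coeFn_sub, Pi.sub_apply, lp.coeFn_zero, Pi.zero_apply]
      rw [h4, h5, h6]
      ring
    have h7 := hinj _ h3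
    have h8 := congrArg (fun F : H (FreeGroup α) => F g) h7
    simp only [lp.coeFn_sub, Pi.sub_apply, lp.coeFn_zero, Pi.zero_apply, tr_apply,
      Equiv.coe_mulRight] at h8
    have h9 : fh g = f g := rfl
    rw [h9] at h8
    exact sub_eq_zero.1 h8
  have hK : ∀ (c : α) (f : FreeGroup α → ℂ) (hf : Summable fun g => ‖f g‖)
      (_ : ∀ g, k (g * (of c)⁻¹) - k g = f g),
      Summable fun g => |‖k (g * (of c)⁻¹)‖ - ‖k g‖| := by
    intro c f hf h
    refine Summable.of_nonneg_of_le (fun _ => abs_nonneg _) (fun g => ?_) hf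
    rw [← h g]
    exact abs_norm_sub_norm_le _ _
  have s1 := summable_child (K := fun g => ‖k g‖) (hK i f1 hf1 (hdiff i f1 hf1 h1))
  have s2 := summable_child (K := fun g => ‖k g‖) (hK j f2 hf2 (hdiff j f2 hf2 h2))
  have hksum : Summable fun g => ‖k g‖ := by
    refine summable_of_children (fun g => ‖k g‖) (fun _ => norm_nonneg _) ?_ (child i) (child j)
      (child_injective hij) s1 s2
    intro T hT
    have h3 : Summable (fun x => ‖k x‖ ^ 2) := (memH_iff _).1 (lp.memℓp k)
    have h4 := h3.tendsto_cofinite_zero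
    have h5 := (h4.eventually (gt_mem_nhds (by positivity : (0:ℝ) < T ^ 2)))
    rw [Filter.eventually_cofinite] at h5
    refine h5.subset ?_
    intro g hg
    simp only [Set.mem_ofPred_eq, not_lt] at hg ⊢
    gcongr
  have h3 := tsum_cv hm hksum
  rw [hm0, zero_mul] at h3
  have h4 : ∀ t, cv m (fun g => k g) t = if t = 1 then 1 else 0 := by
    intro t
    have h5 : cv m (fun g => k g) t = conv m k t := (conv_apply hm k t).symm
    rw [h5, hkd]
    by_cases ht : t = 1
    · subst ht; simp
    · simp [ht]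
  simp_rw [h4] at h3
  rw [tsum_ite_eq] at h3
  exact one_ne_zero h3

end Pool.Agent.Results.MP_11aa79_an.NotFactor.Main
end

section
open Filter Topology
open scoped ENNReal
namespace Pool.Agent.Results.MP_11aa79_an.NotFactor.Words
open Pool.Agent.Results.MP_11aa79_an.NotFactor.Tree FreeGroup

variable {α : Type} [DecidableEq α]

theorem toWord_mul_of_append (x y : FreeGroup α)
    (h : ∀ a ∈ x.toWord.getLast?, ∀ b ∈ y.toWord.head?, a.1 = b.1 → a.2 = b.2) :
    (x * y).toWord = x.toWord ++ y.toWord := by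
  rw [toWord_mul]
  apply IsReduced.reduce_eq
  unfold FreeGroup.IsReduced
  rw [List.isChain_append]
  exact ⟨isReduced_toWord, isReduced_toWord, h⟩

theorem toWord_mul_cancel (g : FreeGroup α) (l : α × Bool)
    (h : g.toWord.getLast? = some (l.1, !l.2)) :
    (g * mk [l]).toWord = g.toWord.dropLast := by
  have h1 : g.toWord = g.toWord.dropLast ++ [(l.1, !l.2)] :=
    (List.dropLast_append_getLast? _ h).symm
  have h2 : g * mk [l] = mk g.toWord.dropLast := by
    conv_lhs => rw [← mk_toWord (x := g), h1]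
    rw [← mul_mk, mul_assoc]
    have : (mk [(l.1, !l.2)] : FreeGroup α) * mk [l] = 1 := by
      have : (mk [(l.1, !l.2)] : FreeGroup α) = (mk [l])⁻¹ := by
        rw [inv_mk]; rfl
      rw [this, inv_mul_cancel]
    rw [this, mul_one]
  rw [h2, toWord_mk]
  apply IsReduced.reduce_eq
  have h3 : FreeGroup.IsReduced (g.toWord.dropLast ++ [(l.1, !l.2)]) := by
    rw [← h1]; exact isReduced_toWord
  unfold FreeGroup.IsReduced at h3 ⊢
  rw [List.isChain_append] at h3
  exact h3.1

/-- Indicator of the words starting with generator i. -/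
noncomputable def st (i : α) (g : FreeGroup α) : ℂ :=
  if g.toWord.head? = some (i, true) then 1 else 0

theorem st_mul_letter (i : α) (g : FreeGroup α) (l : α × Bool) (h1 : g ≠ 1) (h2 : g ≠ of i) :
    st i (g * mk [l]) = st i g := by
  unfold st
  cases hg : g.toWord with
  | nil => exact absurd (toWord_eq_nil_iff.1 hg) h1
  | cons hd tl =>
    by_cases hc : g.toWord.getLast? = some (l.1, !l.2)
    · rw [toWord_mul_cancel g l hc, hg]
      cases tl with
      | nil =>
        have : hd ≠ (i, true) := by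
          intro h
          apply h2
          rw [← mk_toWord (x := g), hg, h]
          rfl
        simp [this]
      | cons hd' tl' => simp
    · rw [toWord_mul_letter g l, hg]
      · simp
      · intro a ha h3
        by_contra h4
        apply hc
        rw [Option.mem_def] at ha
        rw [ha]
        congr 1
        exact Prod.ext h3 (by
          rcases a with ⟨_, a2⟩; rcases l with ⟨_, l2⟩
          cases a2 <;> cases l2 <;> simp at h4 ⊢)

theorem st_one (i : α) : st i (1 : FreeGroup α) = 0 := by simp [st]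
theorem st_of (i : α) : st i (of i) = 1 := by simp [st]
theorem st_of_ne {i j : α} (h : i ≠ j) : st i (of j) = 0 := by simp [st, h.symm]

theorem st_ofi_mul (i c : α) : st i (of i * of c) = 1 := by
  unfold st
  rw [toWord_mul_of_append]
  · simp
  · simp

theorem st_harm {i j : α} (hij : i ≠ j) {A B : ℂ} (hAB : A + B = 1) (x : FreeGroup α) :
    st i x - A * st i (x * of i) - B * st i (x * of j) = if x = 1 then -A else 0 := by
  by_cases h1 : x = 1
  · subst h1
    simp [st_one, st_of, st_of_ne hij]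
  · by_cases h2 : x = of i
    · subst h2
      rw [st_of, st_ofi_mul, st_ofi_mul, if_neg h1]
      linear_combination -hAB
    · have e1 : st i (x * of i) = st i x := st_mul_letter i x (i, true) h1 h2
      have e2 : st i (x * of j) = st i x := st_mul_letter i x (j, true) h1 h2
      rw [e1, e2, if_neg h1]
      linear_combination -hAB * st i x

/-- Variation of the indicator. -/
noncomputable def dd (i : α) (y v : FreeGroup α) : ℝ≥0∞ := ‖st i (y * v) - st i y‖ₑ

theorem dd_one (i : α) (y : FreeGroup α) : dd i y 1 = 0 := by simp [dd]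

theorem dd_mul (i : α) (y v v' : FreeGroup α) :
    dd i y (v * v') ≤ dd i y v + dd i (y * v) v' := by
  unfold dd
  have : st i (y * (v * v')) - st i y =
      (st i (y * v) - st i y) + (st i (y * v * v') - st i (y * v)) := by
    rw [mul_assoc]; ring
  rw [this]
  exact enorm_add_le _ _

theorem dd_shift (i : α) (y v v' : FreeGroup α) :
    dd i (y * v) v' ≤ dd i y (v * v') + dd i y v := by
  unfold dd
  have : st i (y * v * v') - st i (y * v) =
      (st i (y * (v * v')) - st i y) - (st i (y * v) - st i y) := by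
    rw [mul_assoc]; ring
  rw [this]
  exact enorm_sub_le

theorem dd_letter (i : α) (y : FreeGroup α) (l : α × Bool) :
    dd i y (mk [l]) ≤ (if y = 1 then 1 else 0) + (if y = of i then 1 else 0) := by
  by_cases h1 : y = 1
  · refine le_trans ?_ (le_add_right (le_of_eq (if_pos h1).symm))
    unfold dd st
    split_ifs <;> simp
  · by_cases h2 : y = of i
    · refine le_trans ?_ (le_add_left (le_of_eq (if_pos h2).symm))
      unfold dd st
      split_ifs <;> simp
    · unfold dd
      rw [st_mul_letter i y l h1 h2]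
      simp

theorem norm_Gr_le {i j : α} {A B : ℂ} {r : ℝ≥0∞} (hA : ‖A‖ₑ ≤ r) (hB : ‖B‖ₑ ≤ r)
    (g : FreeGroup α) : ‖Gr i j A B g‖ₑ ≤ r ^ (FreeGroup.norm g) := by
  unfold Gr FreeGroup.norm
  induction g.toWord with
  | nil => simp
  | cons hd tl ih =>
    rw [List.map_cons, List.prod_cons, enorm_mul, List.length_cons, pow_succ, mul_comm (r ^ _)]
    refine mul_le_mul' ?_ ih
    unfold wt
    split_ifs
    · exact hA
    · exact hB
    · simp

/-- The two sided geometric sum. -/
noncomputable def C0 (r : ℝ≥0∞) : ℝ≥0∞ := ∑' z : ℤ, r ^ z.natAbs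

theorem C0_ne_top {r : ℝ≥0∞} (hr : r < 1) : C0 r ≠ ∞ := by
  unfold C0
  rw [← Equiv.intEquivNatSumNat.symm.tsum_eq]
  rw [Summable.tsum_sum ENNReal.summable ENNReal.summable]
  refine ENNReal.add_ne_top.2 ⟨?_, ?_⟩
  · have : ∀ n : ℕ, r ^ (Equiv.intEquivNatSumNat.symm (Sum.inl n)).natAbs = r ^ n := by
      intro n; rfl
    simp_rw [this]
    rw [ENNReal.tsum_geometric]
    exact ENNReal.inv_ne_top.2 (tsub_pos_of_lt hr).ne'
  · have : ∀ n : ℕ, r ^ (Equiv.intEquivNatSumNat.symm (Sum.inr n)).natAbs = r ^ (n + 1) := by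
      intro n; rfl
    simp_rw [this, pow_succ]
    rw [ENNReal.tsum_mul_right, ENNReal.tsum_geometric]
    exact ENNReal.mul_ne_top (ENNReal.inv_ne_top.2 (tsub_pos_of_lt hr).ne')
      (hr.trans ENNReal.one_lt_top).ne

theorem norm_mul_ge (v s : FreeGroup α) :
    ((FreeGroup.norm v : ℤ) - FreeGroup.norm s).natAbs ≤ FreeGroup.norm (v * s) := by
  have h1 : FreeGroup.norm v ≤ FreeGroup.norm (v * s) + FreeGroup.norm s := by
    have := FreeGroup.norm_mul_le (v * s) s⁻¹
    rwa [mul_inv_cancel_right, FreeGroup.norm_inv_eq] at this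
  have h2 : FreeGroup.norm s ≤ FreeGroup.norm v + FreeGroup.norm (v * s) := by
    have := FreeGroup.norm_mul_le v⁻¹ (v * s)
    rwa [inv_mul_cancel_left, FreeGroup.norm_inv_eq] at this
  omega

theorem pathsum {i j c : α} {A B : ℂ} {r : ℝ≥0∞} (hr : r ≤ 1) (hA : ‖A‖ₑ ≤ r) (hB : ‖B‖ₑ ≤ r)
    (s v : FreeGroup α) :
    ∑' w, ‖Gr i j A B w‖ₑ * dd c (s * w) v ≤ C0 r + C0 r := by
  have key : ∀ L : List (α × Bool), FreeGroup.IsReduced L →
      ∑' w, ‖Gr i j A B w‖ₑ * dd c (s * w) (mk L) ≤
        ∑ n ∈ Finset.range L.length, (r ^ ((n : ℤ) - FreeGroup.norm s).natAbs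
          + r ^ ((n : ℤ) - FreeGroup.norm ((of c)⁻¹ * s)).natAbs) := by
    intro L
    induction L using List.reverseRecOn with
    | nil =>
      intro _
      have : (mk ([] : List (α × Bool))) = 1 := rfl
      simp [this, dd_one]
    | append_singleton L l ih =>
      intro hL
      have hL' : FreeGroup.IsReduced L := by
        unfold FreeGroup.IsReduced at hL ⊢
        rw [List.isChain_append] at hL
        exact hL.1
      have hnorm : FreeGroup.norm (mk L) = L.length := by
        unfold FreeGroup.norm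
        rw [toWord_mk, hL'.reduce_eq]
      have ih' := ih hL'
      rw [List.length_append, List.length_singleton, Finset.sum_range_succ]
      have h1 : ∀ w, ‖Gr i j A B w‖ₑ * dd c (s * w) (mk (L ++ [l])) ≤
          ‖Gr i j A B w‖ₑ * dd c (s * w) (mk L) +
          (‖Gr i j A B w‖ₑ * (if s * w * mk L = 1 then 1 else 0) +
          ‖Gr i j A B w‖ₑ * (if s * w * mk L = of c then 1 else 0)) := by
        intro w
        rw [← mul_add, ← mul_add]
        gcongr
        rw [← mul_mk]
        exact (dd_mul _ _ _ _).trans (add_le_add le_rfl (dd_letter _ _ _))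
      refine (ENNReal.tsum_le_tsum h1).trans ?_
      rw [ENNReal.tsum_add, ENNReal.tsum_add]
      refine add_le_add ih' (add_le_add ?_ ?_)
      · rw [tsum_eq_single (s⁻¹ * (mk L)⁻¹)]
        · refine (mul_le_of_le_one_right zero_le (by split_ifs <;> simp)).trans ?_
          refine (norm_Gr_le hA hB _).trans ?_
          apply pow_le_pow_of_le_one zero_le hr
          rw [← hnorm]
          have h2 := norm_mul_ge (mk L) s
          rw [← FreeGroup.norm_inv_eq (x := mk L * s), mul_inv_rev] at h2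
          exact h2
        · intro w hw
          rw [if_neg, mul_zero]
          intro h
          apply hw
          rw [mul_assoc, mul_eq_one_iff_eq_inv] at h
          have : w = s⁻¹ * (s * w * mk L) * (mk L)⁻¹ := by group
          rw [this, mul_assoc s w, h]
          group
      · rw [tsum_eq_single (s⁻¹ * of c * (mk L)⁻¹)]
        · refine (mul_le_of_le_one_right zero_le (by split_ifs <;> simp)).trans ?_
          refine (norm_Gr_le hA hB _).trans ?_
          apply pow_le_pow_of_le_one zero_le hr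
          rw [← hnorm]
          have h2 := norm_mul_ge (mk L) ((of c)⁻¹ * s)
          rw [← FreeGroup.norm_inv_eq (x := mk L * ((of c)⁻¹ * s)), mul_inv_rev, mul_inv_rev,
            inv_inv] at h2
          exact h2
        · intro w hw
          rw [if_neg, mul_zero]
          intro h
          apply hw
          have : w = s⁻¹ * (s * w * mk L) * (mk L)⁻¹ := by group
          rw [this, h]
  have h2 := key v.toWord isReduced_toWord
  rw [mk_toWord] at h2
  refine h2.trans ?_
  rw [Finset.sum_add_distrib]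
  have h3 : ∀ m : ℕ, ∑ n ∈ Finset.range v.toWord.length, r ^ ((n : ℤ) - m).natAbs ≤ C0 r := by
    intro m
    refine (ENNReal.sum_le_tsum _).trans ?_
    unfold C0
    exact ENNReal.tsum_comp_le_tsum_of_injective (f := fun n : ℕ => (n : ℤ) - m)
      (fun a b h => by simpa using h) (fun z : ℤ => r ^ z.natAbs)
  exact add_le_add (h3 _) (h3 _)

end Pool.Agent.Results.MP_11aa79_an.NotFactor.Words
end

section
open Filter Topology
open scoped ENNReal
namespace Pool.Agent.Results.MP_11aa79_an.NotFactor.Levels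
open Pool.Agent.Results.MP_11aa79_an.NotFactor.Tree Pool.Agent.Results.MP_11aa79_an.NotFactor.Words FreeGroup

/-- Solving X le c X + Y. -/
theorem solve {X Y c : ℝ≥0∞} (hc : c < 1) (hX : X ≠ ∞) (h : X ≤ c * X + Y) :
    X ≤ Y / (1 - c) := by
  have h1 : (1 - c) ≠ 0 := (tsub_pos_of_lt hc).ne'
  have h2 : (1 - c) ≠ ∞ := ne_top_of_le_ne_top ENNReal.one_ne_top tsub_le_self
  rw [ENNReal.le_div_iff_mul_le (Or.inl h1) (Or.inl h2)]
  rw [mul_comm, ENNReal.sub_mul (fun _ _ => hX), one_mul]
  exact tsub_le_iff_left.2 h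

section
variable {G : Type} (N : G → ℕ) (P : G → Prop) (φ ψ : G → G) (K E : G → ℝ≥0∞)

open Classical in
theorem levels (hφ : ∀ x, P x → P (φ x) ∧ N (φ x) = N x + 1)
    (hψ : ∀ x, P x → P (ψ x) ∧ N (ψ x) = N x + 1)
    (hinj : ∀ x y, P x → P y → (φ x = φ y → x = y) ∧ (ψ x = ψ y → x = y) ∧ φ x ≠ ψ y)
    (c : ℝ≥0∞) (hc : c < 1)
    (hK : ∀ x, P x → K x ≤ c * (K (φ x) + K (ψ x)) + E x)
    (hE : ∑' x, E x ≠ ∞) (C : ℝ≥0∞) (hC : C ≠ ∞)
    (hlev : ∀ m, ∑' x, (if P x ∧ N x = m then K x else 0) ≤ C) :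
    ∑' x, (if P x then K x else 0) ≠ ∞ := by
  set s : ℕ → ℝ≥0∞ := fun m => ∑' x, (if P x ∧ N x = m then K x else 0) with hs
  set e : ℕ → ℝ≥0∞ := fun m => ∑' x, (if N x = m then E x else 0) with he
  have hsum : ∀ f : G → ℝ≥0∞, ∑' m : ℕ, ∑' x, (if N x = m then f x else 0) = ∑' x, f x := by
    intro f
    rw [ENNReal.tsum_comm]
    congr 1; ext x
    rw [tsum_eq_single (N x)]
    · rw [if_pos rfl]
    · intro b hb
      exact if_neg (Ne.symm hb)
  have hs' : ∑' m, s m = ∑' x, (if P x then K x else 0) := by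
    rw [← hsum]
    congr 1; ext m
    simp only [hs]
    congr 1; ext x
    by_cases h1 : P x <;> by_cases h2 : N x = m <;> simp [h1, h2]
  have he' : ∑' m, e m = ∑' x, E x := hsum E
  have hrec : ∀ m, s m ≤ c * s (m + 1) + e m := by
    intro m
    have h1 : s m ≤ c * (∑' x, (if P x ∧ N x = m then K (φ x) else 0) +
        ∑' x, (if P x ∧ N x = m then K (ψ x) else 0)) + e m := by
      simp only [hs, he]
      rw [← ENNReal.tsum_add, ← ENNReal.tsum_mul_left, ← ENNReal.tsum_add]
      apply ENNReal.tsum_le_tsum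
      intro x
      by_cases h1 : P x ∧ N x = m
      · simp only [if_pos h1, if_pos h1.2]
        exact hK x h1.1
      · simp [if_neg h1]
    refine h1.trans ?_
    gcongr
    have h2 : Function.Injective (Sum.elim (fun x : {x // P x ∧ N x = m} => φ x)
        (fun x : {x // P x ∧ N x = m} => ψ x)) := by
      rintro (x | x) (y | y) h
      · simp only [Sum.elim_inl] at h
        have := (hinj x y x.2.1 y.2.1).1 h
        rw [Subtype.ext this]
      · simp only [Sum.elim_inl, Sum.elim_inr] at h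
        exact absurd h (hinj x y x.2.1 y.2.1).2.2
      · simp only [Sum.elim_inl, Sum.elim_inr] at h
        exact absurd h.symm (hinj y x y.2.1 x.2.1).2.2
      · simp only [Sum.elim_inr] at h
        have := (hinj x y x.2.1 y.2.1).2.1 h
        rw [Subtype.ext this]
    have h3 := ENNReal.tsum_comp_le_tsum_of_injective h2
      (fun x => if P x ∧ N x = m + 1 then K x else 0)
    rw [Summable.tsum_sum ENNReal.summable ENNReal.summable] at h3
    simp only [Sum.elim_inl, Sum.elim_inr] at h3
    have h4 : ∀ f : G → ℝ≥0∞, ∑' x, (if P x ∧ N x = m then f x else 0) =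
        ∑' x : {x // P x ∧ N x = m}, f x := by
      intro f
      have := tsum_subtype {x | P x ∧ N x = m} f
      simp only [Set.indicator_apply, Set.mem_ofPred_eq] at this
      exact this.symm
    rw [h4, h4]
    refine le_trans (le_of_eq ?_) h3
    congr 1
    · congr 1; ext x
      rw [if_pos ⟨(hφ x x.2.1).1, by rw [(hφ x x.2.1).2, x.2.2]⟩]
    · congr 1; ext x
      rw [if_pos ⟨(hψ x x.2.1).1, by rw [(hψ x x.2.1).2, x.2.2]⟩]
  rw [← hs']
  set Y := c * C + ∑' x, E x with hY
  have hYtop : Y ≠ ∞ := ENNReal.add_ne_top.2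
    ⟨ENNReal.mul_ne_top (hc.trans ENNReal.one_lt_top).ne hC, hE⟩
  have hpart : ∀ M : ℕ, ∑ m ∈ Finset.range M, s m ≤ Y / (1 - c) := by
    intro M
    apply solve hc
    · exact (ENNReal.sum_lt_top.2 fun m _ => (hlev m).trans_lt hC.lt_top).ne
    · calc ∑ m ∈ Finset.range M, s m ≤ ∑ m ∈ Finset.range M, (c * s (m + 1) + e m) :=
            Finset.sum_le_sum fun m _ => hrec m
        _ = c * ∑ m ∈ Finset.range M, s (m + 1) + ∑ m ∈ Finset.range M, e m := by
            rw [Finset.sum_add_distrib, Finset.mul_sum]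
        _ ≤ c * (∑ m ∈ Finset.range M, s m + C) + ∑' x, E x := by
            gcongr
            · have h5 : ∑ m ∈ Finset.range M, s (m + 1) ≤ ∑ m ∈ Finset.range (M + 1), s m := by
                rw [Finset.sum_range_succ' s M]
                exact le_add_right le_rfl
              refine h5.trans ?_
              rw [Finset.sum_range_succ]
              gcongr
              exact hlev M
            · rw [← he']
              exact ENNReal.sum_le_tsum _
        _ = c * ∑ m ∈ Finset.range M, s m + Y := by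
            rw [hY, mul_add, add_assoc]
  refine ne_top_of_le_ne_top ?_ (ENNReal.tsum_le_of_sum_range_le hpart)
  exact ENNReal.div_ne_top hYtop (tsub_pos_of_lt hc).ne'

end

end Pool.Agent.Results.MP_11aa79_an.NotFactor.Levels
end

section
open Filter Topology
open scoped ENNReal
namespace Pool.Agent.Results.MP_11aa79_an.NotFactor.Fac
open Pool.Agent.Results.MP_11aa79_an.NotFactor.Kap Pool.Agent.Results.MP_11aa79_an.NotFactor.Tree Pool.Agent.Results.MP_11aa79_an.NotFactor.Main
open Pool.Agent.Results.MP_11aa79_an.NotFactor.Words Pool.Agent.Results.MP_11aa79_an.NotFactor.Levels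

section general
variable {G : Type} [Group G]

theorem cv_assoc {m S : G → ℂ} (hm : Summable fun g => ‖m g‖) (hS : Summable fun g => ‖S g‖)
    (f : G → ℂ) (M : ℝ) (hf : ∀ x, ‖f x‖ ≤ M) (t : G) :
    ∑' g, m g * ∑' h, S h * f (h⁻¹ * (g⁻¹ * t)) = ∑' u, cv m S u * f (u⁻¹ * t) := by
  have h0 : Summable fun p : G × G => m p.1 * (S p.2 * f (p.2⁻¹ * (p.1⁻¹ * t))) := by
    refine Summable.of_norm_bounded (g := fun p : G × G => (‖m p.1‖ * ‖S p.2‖) * M)
      ((summable_prod hm hS).mul_right _) (fun p => ?_)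
    rw [norm_mul, norm_mul, mul_assoc]
    have := hf (p.2⁻¹ * (p.1⁻¹ * t))
    gcongr
  have h1 : Summable fun p : G × G => m p.1 * (S (p.1⁻¹ * p.2) * f (p.2⁻¹ * t)) := by
    have := (shear G).summable_iff.2 h0
    refine this.congr (fun p => ?_)
    simp only [Function.comp, shear, Equiv.coe_fn_mk, mul_inv_rev, inv_inv, mul_assoc,
      mul_inv_cancel_left]
  calc ∑' g, m g * ∑' h, S h * f (h⁻¹ * (g⁻¹ * t))
      = ∑' g, ∑' h, m g * (S h * f (h⁻¹ * (g⁻¹ * t))) := by
        congr 1; ext g; rw [tsum_mul_left]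
    _ = ∑' g, ∑' u, m g * (S (g⁻¹ * u) * f (u⁻¹ * t)) := by
        congr 1; ext g
        rw [← (Equiv.mulLeft g⁻¹).tsum_eq (fun h => m g * (S h * f (h⁻¹ * (g⁻¹ * t))))]
        congr 1; ext u
        simp only [Equiv.coe_mulLeft, mul_inv_rev, inv_inv, mul_assoc, mul_inv_cancel_left]
    _ = ∑' u, ∑' g, m g * (S (g⁻¹ * u) * f (u⁻¹ * t)) :=
        (Summable.tsum_comm (f := fun g u => m g * (S (g⁻¹ * u) * f (u⁻¹ * t))) h1).symm
    _ = ∑' u, cv m S u * f (u⁻¹ * t) := by
        congr 1; ext u
        unfold cv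
        rw [← tsum_mul_right]
        congr 1; ext g; ring

variable [DecidableEq G]

theorem rconv_del {b : G → ℂ} (hb : Summable fun g => ‖b g‖) :
    rconv b (lp.single 2 1 1) = conv b (lp.single 2 1 1) := by
  ext x
  rw [rconv_apply hb, conv_apply hb]
  rw [tsum_eq_single x, tsum_eq_single x]
  · simp
  · intro g hg
    have : g⁻¹ * x ≠ 1 := fun h => hg (by rw [inv_mul_eq_one] at h; exact h)
    simp [this]
  · intro g hg
    have : x * g⁻¹ ≠ 1 := fun h => hg (by rw [mul_inv_eq_one] at h; exact h.symm)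
    simp [this]

theorem del_apply (t : G) : (lp.single 2 1 1 : H G) t = if t = 1 then 1 else 0 := by
  by_cases ht : t = 1
  · subst ht; simp
  · simp [ht]

theorem tr_del (c t : G) : (tr (Equiv.mulRight c⁻¹) (lp.single 2 1 1 : H G)) t =
    if t = c then 1 else 0 := by
  rw [tr_apply]
  by_cases ht : t = c
  · subst ht; simp
  · have : t * c⁻¹ ≠ 1 := fun h => ht (by rwa [mul_inv_eq_one] at h)
    simp [ht, this]

theorem rconv_eq {b : G → ℂ} (hb : Summable fun g => ‖b g‖) (k : H G)
    (hk : conv b k = lp.single 2 1 1) : rconv b k = lp.single 2 1 1 := by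
  have h := kaplansky hb k hk (rconv b k - lp.single 2 1 1) (by
    rw [map_sub, conv_rconv hb, hk, rconv_del hb, sub_self])
  exact sub_eq_zero.1 h

end general

open FreeGroup

variable {α : Type} [DecidableEq α]

/-- The element 1 - A i - B j. -/
noncomputable def zz (i j : α) (A B : ℂ) (g : FreeGroup α) : ℂ :=
  (if g = 1 then 1 else 0) - A * (if g = of i then 1 else 0) - B * (if g = of j then 1 else 0)

theorem tsum_zz {i j : α} (hij : i ≠ j) (A B : ℂ) (f : FreeGroup α → ℂ) (t : FreeGroup α) :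
    ∑' u, zz i j A B u * f (u⁻¹ * t) = f t - A * f ((of i)⁻¹ * t) - B * f ((of j)⁻¹ * t) := by
  have h3 : ∀ g, zz i j A B g * f (g⁻¹ * t) = (if g = 1 then f t else 0)
      - (if g = of i then A * f ((of i)⁻¹ * t) else 0)
      - (if g = of j then B * f ((of j)⁻¹ * t) else 0) := by
    intro g
    unfold zz
    have hi1 : of i ≠ 1 := of_ne_one i
    have hj1 : of j ≠ 1 := of_ne_one j
    have hij1 : of i ≠ of j := fun h => hij (of_injective h)
    by_cases ha : g = 1
    · subst ha; simp [hi1.symm, hj1.symm]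
    · by_cases hb : g = of i
      · subst hb; simp [hi1, hij1]
      · by_cases hc : g = of j
        · subst hc; simp [hj1, hij1.symm]
        · simp [ha, hb, hc]
  simp_rw [h3]
  rw [Summable.tsum_sub, Summable.tsum_sub, tsum_ite_eq, tsum_ite_eq, tsum_ite_eq]
  · exact (hasSum_ite_eq _ _).summable
  · exact (hasSum_ite_eq _ _).summable
  · exact ((hasSum_ite_eq _ _).summable).sub (hasSum_ite_eq _ _).summable
  · exact (hasSum_ite_eq _ _).summable

section core
variable {i j : α} (hij : i ≠ j) {A B : ℂ} (hAB : A + B = 1) {r : ℝ≥0∞}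
  (hrA : ‖A‖ₑ = r) (hrB : ‖B‖ₑ = r) (hr : r < 1)
  {p q : FreeGroup α → ℂ} (hp : Summable fun g => ‖p g‖) (hq : Summable fun g => ‖q g‖)
  (hq0 : ∑' g, q g = 0) (hz : ∀ g, cv p q g = zz i j A B g)
  (k : H (FreeGroup α)) (hkG : ∀ x, k x = ∑' h, q h * Gr i j A B (h⁻¹ * x))
  (hkp : ∀ x, ∑' g, p g * k (x * g⁻¹) = if x = 1 then 1 else 0)

/-- The branch sums. -/
noncomputable def tau (q : FreeGroup α → ℂ) (c : α) (x : FreeGroup α) : ℂ :=
  ∑' g, q g * st c (x⁻¹ * g)

theorem norm_st_le (c : α) (x : FreeGroup α) : ‖st c x‖ ≤ 1 := by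
  unfold st; split_ifs <;> simp

omit [DecidableEq α] in
theorem enorm_tsum_le {ι : Type} (f : ι → ℂ) : ‖∑' x, f x‖ₑ ≤ ∑' x, ‖f x‖ₑ := by
  by_cases hf : Summable fun x => ‖f x‖
  · rw [← ofReal_norm]
    refine (ENNReal.ofReal_le_ofReal (norm_tsum_le_tsum_norm hf)).trans ?_
    rw [ENNReal.ofReal_tsum_of_nonneg (fun _ => norm_nonneg _) hf]
    simp_rw [ofReal_norm]
    exact le_rfl
  · have : ¬ Summable f := fun h => hf h.norm
    rw [tsum_eq_zero_of_not_summable this]
    simp

omit [DecidableEq α] in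
theorem tsum_enorm_ne_top {ι : Type} {f : ι → ℂ} (hf : Summable fun x => ‖f x‖) :
    ∑' x, ‖f x‖ₑ ≠ ∞ := by
  simp_rw [← ofReal_norm]
  rw [← ENNReal.ofReal_tsum_of_nonneg (fun _ => norm_nonneg _) hf]
  exact ENNReal.ofReal_ne_top

omit [DecidableEq α] in
theorem summable_of_enorm {ι : Type} {f : ι → ℂ} (hf : ∑' x, ‖f x‖ₑ ≠ ∞) :
    Summable fun x => ‖f x‖ := by
  have := ENNReal.summable_toReal hf
  refine this.congr fun x => ?_
  simp [toReal_enorm]

include hq hq0 in
theorem tau_le (c : α) (y : FreeGroup α) :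
    ‖tau q c y‖ₑ ≤ ∑' g, ‖q g‖ₑ * dd c y⁻¹ g := by
  have h1 : tau q c y = ∑' g, q g * (st c (y⁻¹ * g) - st c y⁻¹) := by
    have h2 : Summable fun g => q g * st c (y⁻¹ * g) := by
      refine Summable.of_norm_bounded hq (fun g => ?_)
      rw [norm_mul]
      exact mul_le_of_le_one_right (norm_nonneg _) (norm_st_le _ _)
    have h3 : Summable fun g => q g * st c y⁻¹ := hq.of_norm.mul_right _
    simp_rw [mul_sub]
    rw [h2.tsum_sub h3, tsum_mul_right, hq0, zero_mul, sub_zero]
    rfl
  rw [h1]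
  refine (enorm_tsum_le _).trans ?_
  apply ENNReal.tsum_le_tsum
  intro g
  rw [enorm_mul]
  rfl

include hrA hrB hr hq hq0 hkG in
theorem ktau_bound (c : α) (x v : FreeGroup α) :
    ∑' u, ‖k u‖ₑ * ‖tau q c (v⁻¹ * (u⁻¹ * x))‖ₑ ≤
      (∑' g, ‖q g‖ₑ) * ((∑' g, ‖q g‖ₑ) * (2 * (C0 r + C0 r))) := by
  have hk1 : ∀ u, ‖k u‖ₑ ≤ ∑' h, ‖q h‖ₑ * ‖Gr i j A B (h⁻¹ * u)‖ₑ := by
    intro u
    rw [hkG u]
    refine (enorm_tsum_le _).trans (le_of_eq ?_)
    simp_rw [enorm_mul]
  have ht1 : ∀ u, ‖tau q c (v⁻¹ * (u⁻¹ * x))‖ₑ ≤ ∑' g, ‖q g‖ₑ * dd c (x⁻¹ * u * v) g := by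
    intro u
    have := tau_le hq hq0 c (v⁻¹ * (u⁻¹ * x))
    have e : (v⁻¹ * (u⁻¹ * x))⁻¹ = x⁻¹ * u * v := by group
    rwa [e] at this
  calc ∑' u, ‖k u‖ₑ * ‖tau q c (v⁻¹ * (u⁻¹ * x))‖ₑ
      ≤ ∑' u, (∑' h, ‖q h‖ₑ * ‖Gr i j A B (h⁻¹ * u)‖ₑ) *
          (∑' g, ‖q g‖ₑ * dd c (x⁻¹ * u * v) g) := by
        apply ENNReal.tsum_le_tsum
        intro u
        exact mul_le_mul' (hk1 u) (ht1 u)
    _ = ∑' h, ∑' g, ‖q h‖ₑ * (‖q g‖ₑ * ∑' u, ‖Gr i j A B (h⁻¹ * u)‖ₑ * dd c (x⁻¹ * u * v) g) := by
        have e1 : ∀ u, (∑' h, ‖q h‖ₑ * ‖Gr i j A B (h⁻¹ * u)‖ₑ) *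
          (∑' g, ‖q g‖ₑ * dd c (x⁻¹ * u * v) g) =
          ∑' h, ∑' g, ‖q h‖ₑ * ‖Gr i j A B (h⁻¹ * u)‖ₑ * (‖q g‖ₑ * dd c (x⁻¹ * u * v) g) := by
          intro u
          rw [← ENNReal.tsum_mul_right]
          congr 1; ext h
          rw [ENNReal.tsum_mul_left]
        simp_rw [e1]
        rw [ENNReal.tsum_comm]
        congr 1; ext h
        rw [ENNReal.tsum_comm]
        congr 1; ext g
        rw [← ENNReal.tsum_mul_left, ← ENNReal.tsum_mul_left]
        congr 1; ext u
        ring
    _ ≤ ∑' h, ∑' g, ‖q h‖ₑ * (‖q g‖ₑ * (2 * (C0 r + C0 r))) := by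
        apply ENNReal.tsum_le_tsum; intro h
        apply ENNReal.tsum_le_tsum; intro g
        gcongr
        rw [← (Equiv.mulLeft h).tsum_eq]
        simp only [Equiv.coe_mulLeft, inv_mul_cancel_left]
        calc ∑' w, ‖Gr i j A B w‖ₑ * dd c (x⁻¹ * (h * w) * v) g
            ≤ ∑' w, (‖Gr i j A B w‖ₑ * dd c ((x⁻¹ * h) * w) (v * g) +
                ‖Gr i j A B w‖ₑ * dd c ((x⁻¹ * h) * w) v) := by
              apply ENNReal.tsum_le_tsum; intro w
              rw [← mul_add]
              gcongr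
              have := dd_shift c ((x⁻¹ * h) * w) v g
              have e : x⁻¹ * (h * w) * v = x⁻¹ * h * w * v := by group
              rwa [e]
          _ = _ := ENNReal.tsum_add
          _ ≤ (C0 r + C0 r) + (C0 r + C0 r) :=
              add_le_add (pathsum hr.le hrA.le hrB.le _ _) (pathsum hr.le hrA.le hrB.le _ _)
          _ = 2 * (C0 r + C0 r) := by ring
    _ = (∑' g, ‖q g‖ₑ) * ((∑' g, ‖q g‖ₑ) * (2 * (C0 r + C0 r))) := by
        simp_rw [ENNReal.tsum_mul_left, ENNReal.tsum_mul_right]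

include hij hrA hrB hr hp hq hq0 hz hkG hkp in
theorem flux (c : α) (Ac : ℂ)
    (hharm : ∀ x : FreeGroup α, st c x - A * st c (x * of i) - B * st c (x * of j) =
      if x = 1 then -Ac else 0) (x : FreeGroup α) : tau q c x = -Ac * k x := by
  -- p * tau = -Ac delta
  have hpt : ∀ y : FreeGroup α, ∑' v, p v * tau q c (v⁻¹ * y) = if y = 1 then -Ac else 0 := by
    intro y
    have h1 := cv_assoc hp hq (fun x => st c x⁻¹) 1 (fun x => norm_st_le _ _) y
    have h2 : ∀ v, tau q c (v⁻¹ * y) = ∑' h, q h * st c (h⁻¹ * (v⁻¹ * y))⁻¹ := by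
      intro v
      unfold tau
      congr 1; ext h
      congr 2
      group
    simp_rw [h2]
    rw [h1]
    simp_rw [hz]
    rw [tsum_zz hij A B (fun x => st c x⁻¹) y]
    have h3 := hharm y⁻¹
    simp only [mul_inv_rev, inv_inv]
    rw [h3]
    simp
  -- absolute convergence
  set F : FreeGroup α × FreeGroup α → ℂ :=
    fun s => k s.1 * (p s.2 * tau q c (s.2⁻¹ * (s.1⁻¹ * x))) with hF
  have hFs : Summable F := by
    apply Summable.of_norm
    apply summable_of_enorm
    have hsw : ∑' s, ‖F s‖ₑ = ∑' v, ∑' u, ‖F (u, v)‖ₑ := by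
      rw [← ENNReal.tsum_comm]
      exact ENNReal.tsum_prod (f := fun u v => ‖F (u, v)‖ₑ)
    rw [hsw]
    refine ne_top_of_le_ne_top ?_ (b := ∑' v, ‖p v‖ₑ *
      ((∑' g, ‖q g‖ₑ) * ((∑' g, ‖q g‖ₑ) * (2 * (C0 r + C0 r))))) ?_
    · rw [ENNReal.tsum_mul_right]
      have hC := C0_ne_top hr
      have hQ := tsum_enorm_ne_top hq
      exact ENNReal.mul_ne_top (tsum_enorm_ne_top hp) (ENNReal.mul_ne_top hQ
        (ENNReal.mul_ne_top hQ (ENNReal.mul_ne_top (by norm_num) (ENNReal.add_ne_top.2 ⟨hC, hC⟩))))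
    · apply ENNReal.tsum_le_tsum; intro v
      refine le_trans (le_of_eq ?_) (mul_le_mul' le_rfl
        (ktau_bound hrA hrB hr hq hq0 k hkG c x v))
      rw [← ENNReal.tsum_mul_left]
      congr 1; ext u
      simp only [hF, enorm_mul]
      ring
  -- change of variables
  let e : FreeGroup α × FreeGroup α ≃ FreeGroup α × FreeGroup α :=
    { toFun := fun s => (s.1 * s.2⁻¹, s.2)
      invFun := fun s => (s.1 * s.2, s.2)
      left_inv := fun s => by simp
      right_inv := fun s => by simp }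
  have hL : ∑' s, F s = -Ac * k x := by
    rw [hFs.tsum_prod]
    have h1 : ∀ u, ∑' v, F (u, v) = k u * (if u⁻¹ * x = 1 then -Ac else 0) := by
      intro u
      simp only [hF]
      rw [tsum_mul_left, hpt]
    simp_rw [h1]
    rw [tsum_eq_single x]
    · simp [mul_comm]
    · intro u hu
      have : u⁻¹ * x ≠ 1 := fun h => hu (by rw [inv_mul_eq_one] at h; exact h)
      simp [this]
  have hR : ∑' s, F s = tau q c x := by
    rw [← e.tsum_eq]
    have hFe : Summable (F ∘ e) := (e.summable_iff).2 hFs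
    change ∑' s, (F ∘ e) s = _
    rw [hFe.tsum_prod]
    have h1 : ∀ y, ∑' v, (F ∘ e) (y, v) = (if y = 1 then 1 else 0) * tau q c (y⁻¹ * x) := by
      intro y
      rw [← hkp y, ← tsum_mul_right]
      congr 1; ext v
      simp only [hF, e, Function.comp, Equiv.coe_fn_mk]
      have : v⁻¹ * ((y * v⁻¹)⁻¹ * x) = y⁻¹ * x := by group
      rw [this]; ring
    simp_rw [h1]
    rw [tsum_eq_single 1]
    · simp
    · intro y hy; simp [hy]
  rw [← hR, hL]

end core

end Pool.Agent.Results.MP_11aa79_an.NotFactor.Fac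
end

section
open Filter Topology
open scoped ENNReal
namespace Pool.Agent.Results.MP_11aa79_an.NotFactor.Last
open Pool.Agent.Results.MP_11aa79_an.NotFactor.Kap Pool.Agent.Results.MP_11aa79_an.NotFactor.Tree Pool.Agent.Results.MP_11aa79_an.NotFactor.Main
open Pool.Agent.Results.MP_11aa79_an.NotFactor.Words Pool.Agent.Results.MP_11aa79_an.NotFactor.Levels Pool.Agent.Results.MP_11aa79_an.NotFactor.Fac
open FreeGroup

variable {α : Type} [DecidableEq α]

open Classical in
theorem lev_part (c : α) (q : FreeGroup α → ℂ) (K : FreeGroup α → ℝ≥0∞) (ρ : ℝ≥0∞)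
    (h : ∀ x, ρ * K x ≤ ‖tau q c x‖ₑ) (m : ℕ) :
    ρ * ∑' x : FreeGroup α, (if x.toWord.getLast? ≠ some (c, false) ∧ FreeGroup.norm x = m
      then K x else 0) ≤ ∑' g, ‖q g‖ₑ := by
  rw [← ENNReal.tsum_mul_left]
  have h1 : ∀ x : FreeGroup α, ρ * (if x.toWord.getLast? ≠ some (c, false) ∧
      FreeGroup.norm x = m then K x else 0) ≤
      ∑' g, ‖q g‖ₑ * (if (x.toWord.getLast? ≠ some (c, false) ∧ FreeGroup.norm x = m) ∧
        (x⁻¹ * g).toWord.head? = some (c, true) then 1 else 0) := by
    intro x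
    by_cases hx : x.toWord.getLast? ≠ some (c, false) ∧ FreeGroup.norm x = m
    · rw [if_pos hx]
      refine (h x).trans ?_
      unfold tau
      refine (enorm_tsum_le _).trans ?_
      apply ENNReal.tsum_le_tsum
      intro g
      rw [enorm_mul]
      gcongr
      unfold st
      by_cases h2 : (x⁻¹ * g).toWord.head? = some (c, true)
      · simp [h2, hx.1, hx.2]
      · simp [h2]
    · rw [if_neg hx]; simp
  refine (ENNReal.tsum_le_tsum h1).trans ?_
  rw [ENNReal.tsum_comm]
  apply ENNReal.tsum_le_tsum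
  intro g
  rw [ENNReal.tsum_mul_left]
  refine mul_le_of_le_one_right zero_le ?_
  rw [tsum_eq_single (mk (g.toWord.take m))]
  · split_ifs <;> simp
  · intro x hx
    rw [if_neg]
    rintro ⟨⟨h2, h3⟩, h4⟩
    apply hx
    have h5 : (x * (x⁻¹ * g)).toWord = x.toWord ++ (x⁻¹ * g).toWord := by
      apply toWord_mul_of_append
      intro a ha b hb h6
      rw [h4] at hb
      simp only [Option.mem_def, Option.some.injEq] at hb
      subst hb
      rw [Option.mem_def] at ha
      by_contra h7
      apply h2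
      rw [ha]
      congr 1
      exact Prod.ext h6 (by simpa using h7)
    rw [mul_inv_cancel_left] at h5
    rw [h5]
    have h6 : x.toWord.length = m := h3
    rw [← h6, List.take_left', mk_toWord]
    rfl

section core
variable {i j : α} (hij : i ≠ j) {A B : ℂ} (hAB : A + B = 1) {r : ℝ≥0∞}
  (hrA : ‖A‖ₑ = r) (hrB : ‖B‖ₑ = r) (hr : r < 1) (hr2 : 1 < 2 * r)
  {p q : FreeGroup α → ℂ} (hp : Summable fun g => ‖p g‖) (hq : Summable fun g => ‖q g‖)
  (hq0 : ∑' g, q g = 0) (hz : ∀ g, cv p q g = zz i j A B g)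
  (k : H (FreeGroup α)) (hkG : ∀ x, k x = ∑' h, q h * Gr i j A B (h⁻¹ * x))
  (hkp : ∀ x, ∑' g, p g * k (x * g⁻¹) = if x = 1 then 1 else 0)
  (hkz : ∀ x, k x - A * k (x * (of i)⁻¹) - B * k (x * (of j)⁻¹) = q x)

/-- Last letter is the inverse of i or of j. -/
def Bk (i j : α) (x : FreeGroup α) : Prop :=
  x.toWord.getLast? = some (i, false) ∨ x.toWord.getLast? = some (j, false)

theorem toWord_mul_of {x : FreeGroup α} {c : α} (h : x.toWord.getLast? ≠ some (c, false)) :
    (x * of c).toWord = x.toWord ++ [(c, true)] := by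
  have : (of c) = mk [(c, true)] := rfl
  rw [this]
  apply toWord_mul_letter
  intro a ha h1
  rw [Option.mem_def] at ha
  by_contra h2
  apply h
  rw [ha]
  congr 1
  exact Prod.ext h1 (by simpa using h2)

theorem toWord_mul_inv_of {x : FreeGroup α} {c : α} (h : x.toWord.getLast? ≠ some (c, true)) :
    (x * (of c)⁻¹).toWord = x.toWord ++ [(c, false)] := by
  have : (of c)⁻¹ = mk [(c, false)] := rfl
  rw [this]
  apply toWord_mul_letter
  intro a ha h1
  rw [Option.mem_def] at ha
  by_contra h2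
  apply h
  rw [ha]
  congr 1
  exact Prod.ext h1 (by simpa using h2)

include hr2 in
theorem r_ne_zero : r ≠ 0 := by
  rintro rfl
  simp at hr2

include hij hAB hrA hrB hr hr2 hp hq hq0 hz hkG hkp in
theorem lev_all (m : ℕ) :
    ∑' x : FreeGroup α, (if FreeGroup.norm x = m then ‖k x‖ₑ else 0) ≤
      (∑' g, ‖q g‖ₑ) / r + (∑' g, ‖q g‖ₑ) / r := by
  classical
  have hr0 : r ≠ 0 := r_ne_zero hr2
  have hrt : r ≠ ∞ := (hr.trans ENNReal.one_lt_top).ne
  have f1 := flux hij hrA hrB hr hp hq hq0 hz k hkG hkp i A (fun x => st_harm hij hAB x)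
  have f2 := flux hij hrA hrB hr hp hq hq0 hz k hkG hkp j B (fun x => by
    have := st_harm hij.symm (A := B) (B := A) (by rw [add_comm]; exact hAB) x
    rw [← this]; ring)
  have g1 := lev_part i q (fun x => ‖k x‖ₑ) r (fun x => by
    rw [f1 x, enorm_mul, enorm_neg, hrA]) m
  have g2 := lev_part j q (fun x => ‖k x‖ₑ) r (fun x => by
    rw [f2 x, enorm_mul, enorm_neg, hrB]) m
  have g1' : ∑' x : FreeGroup α, (if x.toWord.getLast? ≠ some (i, false) ∧ FreeGroup.norm x = m
      then ‖k x‖ₑ else 0) ≤ (∑' g, ‖q g‖ₑ) / r := by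
    rw [ENNReal.le_div_iff_mul_le (Or.inl hr0) (Or.inl hrt), mul_comm]
    exact g1
  have g2' : ∑' x : FreeGroup α, (if x.toWord.getLast? ≠ some (j, false) ∧ FreeGroup.norm x = m
      then ‖k x‖ₑ else 0) ≤ (∑' g, ‖q g‖ₑ) / r := by
    rw [ENNReal.le_div_iff_mul_le (Or.inl hr0) (Or.inl hrt), mul_comm]
    exact g2
  refine le_trans ?_ (add_le_add g1' g2')
  rw [← ENNReal.tsum_add]
  apply ENNReal.tsum_le_tsum
  intro x
  by_cases hx : FreeGroup.norm x = m
  · rw [if_pos hx]
    by_cases h1 : x.toWord.getLast? = some (i, false)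
    · have h2 : x.toWord.getLast? ≠ some (j, false) := by
        rw [h1]
        intro h
        simp only [Option.some.injEq, Prod.mk.injEq, and_true] at h
        exact hij h
      rw [if_pos (show x.toWord.getLast? ≠ some (j, false) ∧ FreeGroup.norm x = m from ⟨h2, hx⟩)]
      exact le_add_left le_rfl
    · rw [if_pos (show x.toWord.getLast? ≠ some (i, false) ∧ FreeGroup.norm x = m from ⟨h1, hx⟩)]
      exact le_add_right le_rfl
  · rw [if_neg hx]; exact zero_le

open Classical in
include hij hAB hrA hrB hr hr2 hp hq hq0 hz hkG hkp in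
theorem lev_P (P : FreeGroup α → Prop) (m : ℕ) :
    ∑' x : FreeGroup α, (if P x ∧ FreeGroup.norm x = m then ‖k x‖ₑ else 0) ≤
      (∑' g, ‖q g‖ₑ) / r + (∑' g, ‖q g‖ₑ) / r := by
  refine le_trans (ENNReal.tsum_le_tsum fun x => ?_)
    (lev_all hij hAB hrA hrB hr hr2 hp hq hq0 hz k hkG hkp m)
  by_cases h1 : FreeGroup.norm x = m
  · rw [if_pos h1]
    split_ifs
    · exact le_rfl
    · exact zero_le
  · rw [if_neg (fun h => h1 h.2), if_neg h1]

open Classical in
include hij hAB hrA hrB hr hr2 hp hq hq0 hz hkG hkp hkz in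
theorem back : ∑' x : FreeGroup α, (if Bk i j x then ‖k x‖ₑ else 0) ≠ ∞ := by
  have hr0 : r ≠ 0 := r_ne_zero hr2
  have hQ := tsum_enorm_ne_top hq
  have hiw : ∀ (c : α) (x : FreeGroup α), Bk i j x →
      (x * (of c)⁻¹).toWord = x.toWord ++ [(c, false)] := by
    intro c x hx
    apply toWord_mul_inv_of
    rcases hx with h | h <;> rw [h] <;> simp
  refine levels FreeGroup.norm (Bk i j) (fun x => x * (of i)⁻¹) (fun x => x * (of j)⁻¹)
    (fun x => ‖k x‖ₑ) (fun x => ‖q x‖ₑ) ?_ ?_ ?_ r hr ?_ hQ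
    ((∑' g, ‖q g‖ₑ) / r + (∑' g, ‖q g‖ₑ) / r) ?_ ?_
  · intro x hx
    refine ⟨Or.inl ?_, ?_⟩
    · simp only [hiw i x hx]; simp
    · unfold FreeGroup.norm; rw [hiw i x hx]; simp
  · intro x hx
    refine ⟨Or.inr ?_, ?_⟩
    · simp only [hiw j x hx]; simp
    · unfold FreeGroup.norm; rw [hiw j x hx]; simp
  · intro x y hx hy
    refine ⟨fun h => mul_right_cancel h, fun h => mul_right_cancel h, fun h => ?_⟩
    have h1 := congrArg (fun z => z.toWord.getLast?) h
    simp only [hiw i x hx, hiw j y hy] at h1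
    simp at h1
    exact hij h1
  · intro x _
    have h1 : k x = A * k (x * (of i)⁻¹) + B * k (x * (of j)⁻¹) + q x := by
      rw [← hkz x]; ring
    conv_lhs => rw [h1]
    refine (enorm_add_le _ _).trans ?_
    gcongr
    refine (enorm_add_le _ _).trans ?_
    rw [enorm_mul, enorm_mul, hrA, hrB, mul_add]
  · refine ENNReal.add_ne_top.2 ⟨?_, ?_⟩ <;> exact ENNReal.div_ne_top hQ hr0
  · exact lev_P hij hAB hrA hrB hr hr2 hp hq hq0 hz k hkG hkp _

open Classical in
include hij hAB hrA hrB hr hr2 hp hq hq0 hz hkG hkp hkz in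
theorem forw : ∑' x : FreeGroup α, (if ¬ Bk i j x then ‖k x‖ₑ else 0) ≠ ∞ := by
  have hr0 : r ≠ 0 := r_ne_zero hr2
  have hrt : r ≠ ∞ := (hr.trans ENNReal.one_lt_top).ne
  have hQ := tsum_enorm_ne_top hq
  have hback := back hij hAB hrA hrB hr hr2 hp hq hq0 hz k hkG hkp hkz
  have hw : ∀ (c : α) (x : FreeGroup α), (c = i ∨ c = j) → ¬ Bk i j x →
      (x * of c).toWord = x.toWord ++ [(c, true)] := by
    intro c x hc hx
    apply toWord_mul_of
    intro h
    apply hx
    rcases hc with rfl | rfl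
    · exact Or.inl h
    · exact Or.inr h
  have hw2 : ∀ (c d : α) (x : FreeGroup α), (c = i ∨ c = j) → c ≠ d → ¬ Bk i j x →
      (x * of c * (of d)⁻¹).toWord = x.toWord ++ [(c, true)] ++ [(d, false)] := by
    intro c d x hc hcd hx
    rw [toWord_mul_inv_of, hw c x hc hx]
    rw [hw c x hc hx]
    simp [hcd]
  set t : ℝ≥0∞ := (2 * r)⁻¹ with ht
  have h2r0 : 2 * r ≠ 0 := (zero_lt_one.trans hr2).ne'
  have h2rt : 2 * r ≠ ∞ := ENNReal.mul_ne_top (by norm_num) hrt
  have htt : t ≠ ∞ := ENNReal.inv_ne_top.2 h2r0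
  have ht1 : t < 1 := by
    rw [ht, ENNReal.inv_lt_one]; exact hr2
  set E : FreeGroup α → ℝ≥0∞ := fun x => if ¬ Bk i j x then
    t * (r * ‖k (x * of i * (of j)⁻¹)‖ₑ + r * ‖k (x * of j * (of i)⁻¹)‖ₑ +
      (‖q (x * of i)‖ₑ + ‖q (x * of j)‖ₑ)) else 0 with hE
  have hEfin : ∑' x, E x ≠ ∞ := by
    have hb1 : ∀ (c d : α), (c = i ∨ c = j) → (d = i ∨ d = j) → c ≠ d →
        ∑' x : FreeGroup α, (if ¬ Bk i j x then ‖k (x * of c * (of d)⁻¹)‖ₑ else 0) ≠ ∞ := by
      intro c d hc hd hcd
      refine ne_top_of_le_ne_top hback ?_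
      have hinj : Function.Injective (fun x : FreeGroup α => x * of c * (of d)⁻¹) := by
        intro x y h
        exact mul_right_cancel (mul_right_cancel h)
      refine le_trans (ENNReal.tsum_le_tsum fun x => ?_)
        (ENNReal.tsum_comp_le_tsum_of_injective hinj
          (fun x => if Bk i j x then ‖k x‖ₑ else 0))
      by_cases hx : Bk i j x
      · rw [if_neg (not_not.2 hx)]; exact zero_le
      · rw [if_pos hx]
        have : Bk i j (x * of c * (of d)⁻¹) := by
          unfold Bk
          rw [hw2 c d x hc hcd hx]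
          rcases hd with rfl | rfl
          · left; simp
          · right; simp
        simp only [if_pos this]
        exact le_rfl
    have hq1 : ∀ c : α, ∑' x : FreeGroup α, ‖q (x * of c)‖ₑ ≠ ∞ := by
      intro c
      have := (Equiv.mulRight (of c)).tsum_eq (fun x => ‖q x‖ₑ)
      simp only [Equiv.coe_mulRight] at this
      rw [this]; exact hQ
    have hle : ∑' x, E x ≤ t * (r * ∑' x : FreeGroup α, (if ¬ Bk i j x then
        ‖k (x * of i * (of j)⁻¹)‖ₑ else 0) + r * ∑' x : FreeGroup α, (if ¬ Bk i j x then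
        ‖k (x * of j * (of i)⁻¹)‖ₑ else 0) + (∑' x : FreeGroup α, ‖q (x * of i)‖ₑ +
        ∑' x : FreeGroup α, ‖q (x * of j)‖ₑ)) := by
      rw [← ENNReal.tsum_mul_left, ← ENNReal.tsum_mul_left, ← ENNReal.tsum_add,
        ← ENNReal.tsum_add, ← ENNReal.tsum_add, ← ENNReal.tsum_mul_left]
      apply ENNReal.tsum_le_tsum
      intro x
      simp only [hE]
      by_cases hx : Bk i j x
      · rw [if_neg (not_not.2 hx)]; exact zero_le
      · rw [if_pos hx, if_pos hx, if_pos hx]
    refine ne_top_of_le_ne_top ?_ hle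
    refine ENNReal.mul_ne_top htt (ENNReal.add_ne_top.2 ⟨ENNReal.add_ne_top.2 ⟨?_, ?_⟩,
      ENNReal.add_ne_top.2 ⟨hq1 i, hq1 j⟩⟩)
    · exact ENNReal.mul_ne_top hrt (hb1 i j (Or.inl rfl) (Or.inr rfl) hij)
    · exact ENNReal.mul_ne_top hrt (hb1 j i (Or.inr rfl) (Or.inl rfl) hij.symm)
  suffices hmain : ∑' x : FreeGroup α, @ite ℝ≥0∞ (¬ Bk i j x) (propDecidable _) ‖k x‖ₑ 0 ≠ ∞ by
    convert hmain
  refine levels FreeGroup.norm (fun x => ¬ Bk i j x) (fun x => x * of i) (fun x => x * of j)
    (fun x => ‖k x‖ₑ) E ?_ ?_ ?_ t ht1 ?_ hEfin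
    ((∑' g, ‖q g‖ₑ) / r + (∑' g, ‖q g‖ₑ) / r) ?_ ?_
  · intro x hx
    refine ⟨?_, ?_⟩
    · unfold Bk
      rw [hw i x (Or.inl rfl) hx]; simp
    · unfold FreeGroup.norm; rw [hw i x (Or.inl rfl) hx]; simp
  · intro x hx
    refine ⟨?_, ?_⟩
    · unfold Bk
      rw [hw j x (Or.inr rfl) hx]; simp
    · unfold FreeGroup.norm; rw [hw j x (Or.inr rfl) hx]; simp
  · intro x y hx hy
    refine ⟨fun h => mul_right_cancel h, fun h => mul_right_cancel h, fun h => ?_⟩
    have h1 := congrArg (fun z => z.toWord.getLast?) h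
    simp only [hw i x (Or.inl rfl) hx, hw j y (Or.inr rfl) hy] at h1
    simp at h1
    exact hij h1
  · intro x hx
    simp only [hE, if_pos hx]
    have e1 : A * k x = k (x * of i) - B * k (x * of i * (of j)⁻¹) - q (x * of i) := by
      have := hkz (x * of i)
      rw [mul_inv_cancel_right] at this
      rw [← this]; ring
    have e2 : B * k x = k (x * of j) - A * k (x * of j * (of i)⁻¹) - q (x * of j) := by
      have := hkz (x * of j)
      rw [mul_inv_cancel_right] at this
      rw [← this]; ring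
    have n1 : r * ‖k x‖ₑ ≤ ‖k (x * of i)‖ₑ + r * ‖k (x * of i * (of j)⁻¹)‖ₑ +
        ‖q (x * of i)‖ₑ := by
      have h0 : r * ‖k x‖ₑ = ‖A * k x‖ₑ := by rw [enorm_mul, hrA]
      rw [h0, e1]
      refine enorm_sub_le.trans ?_
      gcongr
      refine enorm_sub_le.trans ?_
      rw [enorm_mul, hrB]
    have n2 : r * ‖k x‖ₑ ≤ ‖k (x * of j)‖ₑ + r * ‖k (x * of j * (of i)⁻¹)‖ₑ +
        ‖q (x * of j)‖ₑ := by
      have h0 : r * ‖k x‖ₑ = ‖B * k x‖ₑ := by rw [enorm_mul, hrB]
      rw [h0, e2]
      refine enorm_sub_le.trans ?_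
      gcongr
      refine enorm_sub_le.trans ?_
      rw [enorm_mul, hrA]
    have n3 : 2 * r * ‖k x‖ₑ ≤ (‖k (x * of i)‖ₑ + ‖k (x * of j)‖ₑ) +
        (r * ‖k (x * of i * (of j)⁻¹)‖ₑ + r * ‖k (x * of j * (of i)⁻¹)‖ₑ +
          (‖q (x * of i)‖ₑ + ‖q (x * of j)‖ₑ)) := by
      calc 2 * r * ‖k x‖ₑ = r * ‖k x‖ₑ + r * ‖k x‖ₑ := by ring
        _ ≤ _ := add_le_add n1 n2
        _ = _ := by ring
    rw [← mul_add]
    calc ‖k x‖ₑ = t * (2 * r * ‖k x‖ₑ) := by
          rw [ht, ← mul_assoc, ENNReal.inv_mul_cancel h2r0 h2rt, one_mul]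
      _ ≤ _ := mul_le_mul' le_rfl n3
  · refine ENNReal.add_ne_top.2 ⟨?_, ?_⟩ <;> exact ENNReal.div_ne_top hQ hr0
  · exact lev_P hij hAB hrA hrB hr hr2 hp hq hq0 hz k hkG hkp _

end core

/-- Main theorem: 1 - A i - B j is not a product of two elements of the augmentation ideal. -/
theorem no_factor {i j : α} (hij : i ≠ j) {A B : ℂ} (hAB : A + B = 1) {ρ : ℝ}
    (hA : ‖A‖ = ρ) (hB : ‖B‖ = ρ) (h1 : 1 < 2 * ρ) (h2 : 2 * ρ ^ 2 < 1)
    {p q : FreeGroup α → ℂ} (hp : Summable fun g => ‖p g‖) (hq : Summable fun g => ‖q g‖)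
    (hp0 : ∑' g, p g = 0) (hq0 : ∑' g, q g = 0) (hz : ∀ g, cv p q g = zz i j A B g) :
    False := by
  have hGs : ‖A‖ ^ 2 + ‖B‖ ^ 2 < 1 := by rw [hA, hB]; linarith
  have hρ : ρ < 1 := by nlinarith
  set Gh : H (FreeGroup α) := ⟨Gr i j A B, (memH_iff _).2 (summable_Gr hij hGs)⟩ with hGh
  set k : H (FreeGroup α) := conv q Gh with hk
  have hkG : ∀ x, k x = ∑' h, q h * Gr i j A B (h⁻¹ * x) := fun x => conv_apply hq Gh x
  have hkd : conv p k = lp.single 2 1 1 := by
    rw [hk, conv_conv hp hq]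
    ext t
    rw [conv_apply (summable_cv hp hq), del_apply]
    simp_rw [hz]
    have h3 := tsum_zz hij A B (fun x => Gh x) t
    have h4 : ∑' g, zz i j A B g * Gh (g⁻¹ * t) = Gh t - A * Gh ((of i)⁻¹ * t)
      - B * Gh ((of j)⁻¹ * t) := h3
    rw [h4]
    exact Gr_eq hij A B t
  have hinj := kaplansky hp k hkd
  have hkp : ∀ x, ∑' g, p g * k (x * g⁻¹) = if x = 1 then 1 else 0 := by
    intro x
    rw [← rconv_apply hp k x, rconv_eq hp k hkd, del_apply]
  have hkz : ∀ x, k x - A * k (x * (of i)⁻¹) - B * k (x * (of j)⁻¹) = q x := by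
    set qh : H (FreeGroup α) := ⟨q, summable_sq_of_summable hq⟩ with hqh
    have h3 : conv p (k - A • tr (Equiv.mulRight (of i)⁻¹) k - B • tr (Equiv.mulRight (of j)⁻¹) k
        - qh) = 0 := by
      rw [map_sub, map_sub, map_sub, map_smul, map_smul, conv_rtr hp, conv_rtr hp, hkd]
      ext t
      have h4 : conv p qh t = zz i j A B t := by
        rw [conv_apply hp, ← hz t]
        rfl
      simp only [lp.coeFn_sub, lp.coeFn_smul, Pi.sub_apply, Pi.smul_apply, lp.coeFn_zero,
        Pi.zero_apply, smul_eq_mul]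
      rw [h4, tr_del, tr_del, del_apply]
      unfold zz
      ring
    have h7 := hinj _ h3
    intro x
    have h8 := congrArg (fun F : H (FreeGroup α) => F x) h7
    simp only [lp.coeFn_sub, lp.coeFn_smul, Pi.sub_apply, Pi.smul_apply, lp.coeFn_zero,
        Pi.zero_apply, smul_eq_mul, tr_apply, Equiv.coe_mulRight] at h8
    have h9 : qh x = q x := rfl
    rw [h9] at h8
    exact sub_eq_zero.1 h8
  set r : ℝ≥0∞ := ENNReal.ofReal ρ with hr
  have hρ0 : 0 < ρ := by linarith
  have hrA : ‖A‖ₑ = r := by rw [← ofReal_norm, hA]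
  have hrB : ‖B‖ₑ = r := by rw [← ofReal_norm, hB]
  have hr1 : r < 1 := by rw [hr]; exact ENNReal.ofReal_lt_one.2 hρ
  have hr2 : 1 < 2 * r := by
    have : (2 : ℝ≥0∞) = ENNReal.ofReal 2 := by norm_num
    rw [hr, this, ← ENNReal.ofReal_mul (by norm_num)]
    exact ENNReal.one_lt_ofReal.2 h1
  have b := back hij hAB hrA hrB hr1 hr2 hp hq hq0 hz k hkG hkp hkz
  have f := forw hij hAB hrA hrB hr1 hr2 hp hq hq0 hz k hkG hkp hkz
  have hksum : Summable fun g => ‖k g‖ := by
    apply summable_of_enorm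
    refine ne_top_of_le_ne_top (ENNReal.add_ne_top.2 ⟨b, f⟩) ?_
    rw [← ENNReal.tsum_add]
    apply ENNReal.tsum_le_tsum
    intro x
    by_cases hx : Bk i j x
    · rw [if_pos hx]; exact le_add_right le_rfl
    · rw [if_neg hx, if_pos hx]; exact le_add_left le_rfl
  have h3 := tsum_cv hp hksum
  rw [hp0, zero_mul] at h3
  have h4 : ∀ t, cv p (fun g => k g) t = if t = 1 then 1 else 0 := by
    intro t
    have h5 : cv p (fun g => k g) t = conv p k t := (conv_apply hp k t).symm
    rw [h5, hkd, del_apply]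
  simp_rw [h4] at h3
  rw [tsum_ite_eq] at h3
  exact one_ne_zero h3

end Pool.Agent.Results.MP_11aa79_an.NotFactor.Last
end


namespace Pool.Agent.Results.MP_11aa79_an.NotFactor

/-- The augmentation ideal of the free group algebra on two generators does not factor: some
finitely supported element is not a product of two elements of the ideal. -/
theorem result :
    ∃ a : FreeGroup (Fin 2) → ℂ, (Function.support a).Finite ∧ InI0 a ∧
      ∀ b c : FreeGroup (Fin 2) → ℂ, InI0 b → InI0 c → a ≠ convProd b c := by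
  set A : ℂ := (2 + Complex.I) / 4 with hA
  set B : ℂ := (2 - Complex.I) / 4 with hB
  have hAB : A + B = 1 := by rw [hA, hB]; ring
  have hnA : ‖A‖ = Real.sqrt 5 / 4 := by
    rw [hA, norm_div]
    have h1 : ‖(2 + Complex.I : ℂ)‖ = Real.sqrt 5 := by
      rw [Complex.norm_def]
      congr 1
      simp [Complex.normSq_apply]; norm_num
    rw [h1]; norm_num
  have hnB : ‖B‖ = Real.sqrt 5 / 4 := by
    rw [hB, norm_div]
    have h1 : ‖(2 - Complex.I : ℂ)‖ = Real.sqrt 5 := by
      rw [Complex.norm_def]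
      congr 1
      simp [Complex.normSq_apply]; norm_num
    rw [h1]; norm_num
  have h5 : Real.sqrt 5 ^ 2 = 5 := Real.sq_sqrt (by norm_num)
  have h50 : 0 ≤ Real.sqrt 5 := Real.sqrt_nonneg 5
  have h1 : 1 < 2 * (Real.sqrt 5 / 4) := by nlinarith
  have h2 : 2 * (Real.sqrt 5 / 4) ^ 2 < 1 := by nlinarith
  have h01 : (0 : Fin 2) ≠ 1 := by decide
  have hd : ∀ c : FreeGroup (Fin 2),
      Summable (fun g : FreeGroup (Fin 2) => if g = c then (1 : ℂ) else 0) :=
    fun c => (hasSum_ite_eq c 1).summable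
  have hsum : Summable (Fac.zz (0 : Fin 2) 1 A B) := by
    unfold Fac.zz
    exact ((hd _).sub ((hd _).mul_left A)).sub ((hd _).mul_left B)
  refine ⟨Fac.zz 0 1 A B, ?_, ⟨hsum.norm, ?_⟩, ?_⟩
  · refine (Set.toFinite {1, FreeGroup.of 0, FreeGroup.of 1}).subset ?_
    intro g hg
    by_contra hcon
    simp only [Set.mem_insert_iff, Set.mem_singleton_iff, not_or] at hcon
    apply hg
    unfold Fac.zz
    rw [if_neg hcon.1, if_neg hcon.2.1, if_neg hcon.2.2]
    ring
  · have h3 := Fac.tsum_zz h01 A B (fun _ => (1 : ℂ)) 1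
    simp only [mul_one] at h3
    rw [h3]
    linear_combination -hAB
  · intro b c hb hc h
    exact Last.no_factor h01 hAB hnA hnB h1 h2 hb.1 hc.1 hb.2 hc.2
      (fun g => (congrFun h g).symm)

end Pool.Agent.Results.MP_11aa79_an.NotFactor
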